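import Pool.Agent.Q289.MK.BETA

/-!
# Job LIM: the scaling limit, at the level of laws
-/

namespace Pool.Agent.Q291.MK

open Filter Topology

namespace LimAux

open BetaAux

lemma abs_exp_sub {x y : ℝ} (hx : x ≤ 0) (hy : y ≤ 0) : |Real.exp x - Real.exp y| ≤ |x - y| := by
  wlog h : y ≤ x generalizing x y with H
  · have := H hy hx (le_of_not_ge h)
    rwa [abs_sub_comm, abs_sub_comm x y]
  rw [abs_of_nonneg (sub_nonneg.2 h), abs_of_nonneg (sub_nonneg.2 (Real.exp_le_exp.2 h))]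
  have h1 : Real.exp y = Real.exp x * Real.exp (y - x) := by rw [← Real.exp_add]; ring_nf
  have h2 : y - x + 1 ≤ Real.exp (y - x) := Real.add_one_le_exp _
  have h3 : Real.exp x ≤ 1 := Real.exp_le_one_iff.2 hx
  have h4 : 0 < Real.exp x := Real.exp_pos x
  have h5 : Real.exp (y - x) ≤ 1 := Real.exp_le_one_iff.2 (by linarith)
  rw [h1]
  nlinarith

lemma E_abs_le {a : ℕ → ℝ} (ha : AM a) : E a (fun k => |(k:ℝ) - mean a|) ≤ √(vr a) := by
  apply Real.le_sqrt_of_sq_le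
  obtain ⟨c, hc⟩ : ∃ c, c = E a (fun k => |(k:ℝ) - mean a|) := ⟨_, rfl⟩
  rw [← hc]
  have hX : PB (fun k : ℕ => |(k:ℝ) - mean a|) := (PB.id.sub (PB.const _)).abs
  have hX2 : PB (fun k : ℕ => ((k:ℝ) - mean a) ^ 2) := (PB.id.sub (PB.const _)).pow 2
  have h0 : 0 ≤ E a (fun k => (|(k:ℝ) - mean a| - c) ^ 2) :=
    tsum_nonneg fun k => mul_nonneg (ha.nn k) (sq_nonneg _)
  have e : (fun k : ℕ => (|(k:ℝ) - mean a| - c) ^ 2) =
      fun k : ℕ => (((k:ℝ) - mean a) ^ 2 - 2 * c * |(k:ℝ) - mean a|) + c ^ 2 := by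
    funext k
    rw [sub_sq, sq_abs]
    ring
  rw [e, ha.E_add (hX2.sub ((PB.const (2 * c)).mul hX)) (PB.const _),
    ha.E_sub hX2 ((PB.const (2 * c)).mul hX), E_const_mul, ha.toLaw.E_const, ← hc] at h0
  have : E a (fun k => ((k:ℝ) - mean a) ^ 2) = vr a := rfl
  rw [this] at h0
  nlinarith

lemma E_pow_sub {a : ℕ → ℝ} (ha : AM a) (h : vr a ≤ mean a) (hm : 0 ≤ mean a) {t : ℝ}
    (ht0 : 0 < t) (ht1 : t ≤ 1) :
    |E a (fun k => t ^ k) - t ^ (mean a)| ≤ √(mean a) * |Real.log t| := by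
  have hl : Real.log t ≤ 0 := Real.log_nonpos ht0.le ht1
  have hb : PB (fun k : ℕ => t ^ k) := (PB.const 1).of_le fun k => by
    rw [abs_of_nonneg (pow_nonneg ht0.le _)]; exact pow_le_one₀ ht0.le ht1
  have e1 : E a (fun k => t ^ k) - t ^ (mean a) = E a (fun k => t ^ k - t ^ (mean a)) := by
    rw [ha.E_sub hb (PB.const _), ha.toLaw.E_const]
  rw [e1]
  refine (ha.abs_E_le (hb.sub (PB.const _))).trans ?_
  have hX : PB (fun k : ℕ => |(k:ℝ) - mean a|) := (PB.id.sub (PB.const _)).abs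
  have h2 : E a (fun k : ℕ => |t ^ k - t ^ (mean a)|) ≤
      E a (fun k : ℕ => |Real.log t| * |(k:ℝ) - mean a|) := by
    refine ha.E_mono (hb.sub (PB.const _)).abs ((PB.const _).mul hX) fun k => ?_
    have h3 : t ^ k = Real.exp (Real.log t * k) := by
      rw [← Real.rpow_natCast, Real.rpow_def_of_pos ht0]
    rw [h3, Real.rpow_def_of_pos ht0]
    refine (abs_exp_sub (mul_nonpos_of_nonpos_of_nonneg hl (Nat.cast_nonneg k))
      (mul_nonpos_of_nonpos_of_nonneg hl hm)).trans ?_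
    rw [← mul_sub, abs_mul]
  refine h2.trans ?_
  rw [E_const_mul, mul_comm]
  exact mul_le_mul_of_nonneg_right ((E_abs_le ha).trans (Real.sqrt_le_sqrt h)) (abs_nonneg _)

lemma one_sub_le_mean {a : ℕ → ℝ} (ha : Law a) (hs : Summable fun k => a k * (k:ℝ) ^ 2) :
    1 - a 0 ≤ mean a := by
  have h1 : Summable fun k => a k * (k:ℝ) := by
    refine Summable.of_nonneg_of_le (fun k => mul_nonneg (ha.nn k) (Nat.cast_nonneg k))
      (fun k => mul_le_mul_of_nonneg_left ?_ (ha.nn k)) hs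
    rcases Nat.eq_zero_or_pos k with rfl | hk
    · simp
    · have : (1:ℝ) ≤ k := by exact_mod_cast hk
      nlinarith
  have h2 : Summable fun k => a (k + 1) * ((k + 1 : ℕ) : ℝ) := (summable_nat_add_iff 1).2 h1
  have h3 : Summable fun k => a (k + 1) := (summable_nat_add_iff 1).2 ha.one.summable
  have h4 : mean a = ∑' k, a (k + 1) * ((k + 1 : ℕ) : ℝ) := by
    unfold mean E
    rw [h1.tsum_eq_zero_add]
    simp
  have h5 : a 0 + ∑' k, a (k + 1) = 1 := by
    rw [← ha.one.summable.tsum_eq_zero_add, ha.one.tsum_eq]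
  have h6 : ∑' k, a (k + 1) ≤ ∑' k, a (k + 1) * ((k + 1 : ℕ) : ℝ) := by
    refine Summable.tsum_le_tsum (fun k => ?_) h3 h2
    have : (1:ℝ) ≤ ((k + 1 : ℕ) : ℝ) := by exact_mod_cast Nat.succ_pos k
    exact le_mul_of_one_le_right (ha.nn _) this
  rw [h4]
  linarith

lemma law_le_one {a : ℕ → ℝ} (ha : Law a) (i : ℕ) : a i ≤ 1 := by
  have := ha.one.summable.le_tsum i (fun k _ => ha.nn k)
  rwa [ha.one.tsum_eq] at this

/-- Everything about one level `k`. -/
structure Lv (β : ℕ → ℝ) (ν : ℕ → ℕ) (b : ℤ → ℕ → ℝ) (k : ℤ) : Prop where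
  law : Law (b k)
  sm : Summable fun i => b k i * (i:ℝ) ^ 2
  mn : Tendsto (fun l : ℕ => mean (R^[((ν l : ℤ) + k).toNat] (pois (2 * β (ν l))))) atTop
    (𝓝 (mean (b k)))
  w : Tendsto (fun l : ℕ => W (R^[((ν l : ℤ) + k).toNat] (pois (2 * β (ν l))))) atTop
    (𝓝 (W (b k)))
  e : ∀ φ : ℕ → ℝ, (∃ C, ∀ k, |φ k| ≤ C) →
    Tendsto (fun l : ℕ => E (R^[((ν l : ℤ) + k).toNat] (pois (2 * β (ν l)))) φ) atTop
    (𝓝 (E (b k) φ))

end LimAux

open BetaAux LimAux in
theorem t_LIM (hp : P_POIS) (hcr : P_CRUDE) (hwl : P_WL) (hrb : P_RB) (_hst : P_ST)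
    (hc : P_CONT) (hti : P_TIGHT) (hbeta : P_BETA) : P_LIM := by
  intro w hw0 hw1
  obtain ⟨C0, hC0, hN⟩ := hbeta w hw0 hw1
  choose β hβ hβW using fun N => (hN N).1
  have hb := fun N => (hN N).2 (β N) (hβ N) (hβW N)
  have hpm : ∀ N, AM (pois (2 * β N)) ∧ pois (2 * β N) 0 < 1 := fun N =>
    pois_AM hp (by have := hβ N; linarith)
  have hAM : ∀ N n, AM (R^[n] (pois (2 * β N))) := fun N n => am_iter hrb (hpm N).1 n
  -- compactness
  let F : ℕ → (ℤ × ℕ → ℝ) := fun N p => (R^[((N : ℤ) + p.1).toNat] (pois (2 * β N))) p.2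
  have hK : IsCompact (Set.pi Set.univ (fun _ : ℤ × ℕ => Set.Icc (0:ℝ) 1)) :=
    isCompact_univ_pi fun _ => isCompact_Icc
  have hF : ∀ N, F N ∈ Set.pi Set.univ (fun _ : ℤ × ℕ => Set.Icc (0:ℝ) 1) := fun N p _ =>
    ⟨(hAM N _).nn _, law_le_one (hAM N _).toLaw _⟩
  obtain ⟨g, -, ν, hν, hlim⟩ := hK.tendsto_subseq hF
  obtain ⟨b, hbdef⟩ : ∃ b : ℤ → ℕ → ℝ, b = fun k i => g (k, i) := ⟨_, rfl⟩
  have hconv : ∀ k i, Tendsto (fun l : ℕ => (R^[((ν l : ℤ) + k).toNat] (pois (2 * β (ν l)))) i)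
      atTop (𝓝 (b k i)) := by
    intro k i
    rw [hbdef]
    exact (tendsto_pi_nhds.1 hlim) (k, i)
  have hνl : ∀ l, l ≤ ν l := fun l => hν.le_apply
  -- second moments
  have hq2n : ∀ (j : ℕ) (N : ℕ), j ≤ N →
      q2 (R^[((N : ℤ) + (-(j:ℤ))).toNat] (pois (2 * β N))) ≤ C0 * (1 + (j:ℝ)) ^ 2 := by
    intro j N hj
    have e : ((N : ℤ) + (-(j:ℤ))).toNat = N - j := by omega
    rw [e]
    exact (hb N).2.2.1 j hj
  have hq2p : ∀ (j : ℕ) (N : ℕ),
      q2 (R^[((N : ℤ) + (j:ℤ)).toNat] (pois (2 * β N))) ≤ C0 := by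
    intro j N
    have e : ((N : ℤ) + (j:ℤ)).toNat = N + j := by omega
    rw [e]
    exact (hb N).2.2.2.2 j
  have hq : ∀ k : ℤ, ∃ Q : ℝ, ∀ N : ℕ, k.natAbs ≤ N →
      q2 (R^[((N : ℤ) + k).toNat] (pois (2 * β N))) ≤ Q := by
    intro k
    rcases Int.natAbs_eq k with h | h
    · refine ⟨C0, fun N _ => ?_⟩
      rw [h]; exact hq2p _ N
    · refine ⟨C0 * (1 + (k.natAbs:ℝ)) ^ 2, fun N hN => ?_⟩
      have := hq2n k.natAbs N hN
      rw [← h] at this
      exact this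
  have hLv : ∀ k : ℤ, Lv β ν b k := by
    intro k
    obtain ⟨Q, hQ⟩ := hq k
    have hsh : Tendsto (fun l : ℕ => l + k.natAbs) atTop atTop := tendsto_add_atTop_nat _
    have h1 := hti (fun l => R^[((ν (l + k.natAbs) : ℤ) + k).toNat] (pois (2 * β (ν (l + k.natAbs)))))
      (b k) Q (fun l => hAM _ _) (fun l => hQ _ (by have := hνl (l + k.natAbs); omega))
      (fun i => (hconv k i).comp hsh)
    have h2 := hc (fun l => R^[((ν l : ℤ) + k).toNat] (pois (2 * β (ν l)))) (b k)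
      (fun l => (hAM _ _).toLaw) h1.1 (hconv k)
    refine ⟨h1.1, h1.2.1, ?_, h2.2.2.2.2.2.2, h2.2.1⟩
    exact (tendsto_add_atTop_iff_nat k.natAbs).1 h1.2.2.2
  -- recursion
  have hstep : ∀ (k : ℤ) (N : ℕ), k.natAbs ≤ N →
      R^[((N : ℤ) + (k + 1)).toNat] (pois (2 * β N)) =
      R (R^[((N : ℤ) + k).toNat] (pois (2 * β N))) := by
    intro k N hN
    have e : ((N : ℤ) + (k + 1)).toNat = ((N : ℤ) + k).toNat + 1 := by omega
    rw [e, Function.iterate_succ_apply']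
  have hev : ∀ k : ℤ, ∀ᶠ l : ℕ in atTop, k.natAbs ≤ ν l := by
    intro k
    filter_upwards [eventually_ge_atTop k.natAbs] with l hl
    exact hl.trans (hνl l)
  have hrec : ∀ k, b (k + 1) = R (b k) := by
    intro k
    funext i
    have h1 := cont_R hc (fun l => (hAM (ν l) (((ν l : ℤ) + k).toNat)).toLaw) (hLv k).law (hconv k) i
    refine tendsto_nhds_unique (hconv (k + 1) i) (h1.congr' ?_)
    filter_upwards [hev k] with l hl
    rw [hstep k (ν l) hl]
  have hW0 : W (b 0) = w := by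
    refine tendsto_nhds_unique (hLv 0).w ?_
    have : (fun l : ℕ => W (R^[((ν l : ℤ) + 0).toNat] (pois (2 * β (ν l))))) = fun _ => w := by
      funext l
      have e : ((ν l : ℤ) + 0).toNat = ν l := by omega
      rw [e, hβW]
    rw [this]
    exact tendsto_const_nhds
  have hmneg : ∀ j : ℕ, |mean (b (-j)) - 2 * j| ≤ C0 * (1 + Real.log (j + 1)) := by
    intro j
    refine le_of_tendsto (((hLv (-j)).mn.sub_const _).abs) ?_
    filter_upwards [hev (-j)] with l hl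
    have hj : j ≤ ν l := by simpa using hl
    have e : ((ν l : ℤ) + (-(j:ℤ))).toNat = ν l - j := by omega
    rw [e]
    exact (hb (ν l)).2.1 j hj
  have hpow : ∀ j : ℕ, C0 ≤ j → ∀ t : ℝ, 0 < t → t ≤ 1 →
      |E (b (-j)) (fun k => t ^ k) - t ^ (mean (b (-j)))| ≤ √(mean (b (-j))) * |Real.log t| := by
    intro j hj t ht0 ht1
    have h1 := (hLv (-j)).e (fun k => t ^ k) ⟨1, fun k => by
      rw [abs_of_nonneg (pow_nonneg ht0.le _)]; exact pow_le_one₀ ht0.le ht1⟩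
    have h2 : Tendsto (fun l : ℕ => t ^ (mean (R^[((ν l : ℤ) + (-(j:ℤ))).toNat]
        (pois (2 * β (ν l)))))) atTop (𝓝 (t ^ (mean (b (-j))))) :=
      ((Real.continuous_const_rpow ht0.ne').tendsto _).comp (hLv (-j)).mn
    have h3 := ((Real.continuous_sqrt.tendsto _).comp (hLv (-j)).mn).mul_const |Real.log t|
    refine le_of_tendsto_of_tendsto ((h1.sub h2).abs) h3 ?_
    filter_upwards [hev (-j)] with l hl
    have hjl : j ≤ ν l := by simpa using hl
    have e : ((ν l : ℤ) + (-(j:ℤ))).toNat = ν l - j := by omega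
    simp only [Function.comp_apply]
    rw [e]
    exact E_pow_sub (hAM _ _) ((hb (ν l)).2.2.2.1 j hjl hj) (hcr _ (hAM _ _)).1 ht0 ht1
  -- inequalities at nonnegative levels
  have hm0 : ∀ k : ℕ, 0 ≤ mean (b k) := fun k =>
    ge_of_tendsto' (hLv k).mn fun l => (hcr _ (hAM _ _)).1
  have hsq : ∀ k : ℕ, mean (b k) ^ 2 ≤ (1 - b k 0) * C0 := by
    intro k
    refine le_of_tendsto_of_tendsto' ((hLv k).mn.pow 2)
      ((tendsto_const_nhds.sub (hconv k 0)).mul_const C0) fun l => ?_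
    have h1 := (hcr _ (hAM (ν l) (((ν l : ℤ) + k).toNat))).2.2.1
    refine h1.trans (mul_le_mul_of_nonneg_left (hq2p k (ν l)) ?_)
    have := a0_le (hAM (ν l) (((ν l : ℤ) + k).toNat)).toLaw
    linarith
  have hstep' : ∀ (k l : ℕ), R^[((ν l : ℤ) + ((k + 1 : ℕ) : ℤ)).toNat] (pois (2 * β (ν l))) =
      R (R^[((ν l : ℤ) + (k:ℤ)).toNat] (pois (2 * β (ν l)))) := by
    intro k l
    have e : ((ν l : ℤ) + ((k + 1 : ℕ) : ℤ)).toNat = ((ν l : ℤ) + (k:ℤ)).toNat + 1 := by omega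
    rw [e, Function.iterate_succ_apply']
  have hdec : ∀ k : ℕ, mean (b ((k + 1 : ℕ) : ℤ)) ≤ mean (b k) - (1 - b k 0) / 6 := by
    intro k
    refine le_of_tendsto_of_tendsto' (hLv ((k + 1 : ℕ) : ℤ)).mn
      ((hLv k).mn.sub ((tendsto_const_nhds.sub (hconv k 0)).div_const 6)) fun l => ?_
    rw [hstep']
    exact (hrb _ (hAM _ _)).2.1
  have hquart : ∀ k : ℕ, mean (b ((k + 1 : ℕ) : ℤ)) ≤ 32 / 125 * mean (b k) ^ 4 := by
    intro k
    refine le_of_tendsto_of_tendsto' (hLv ((k + 1 : ℕ) : ℤ)).mn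
      (((hLv k).mn.pow 4).const_mul (32 / 125)) fun l => ?_
    rw [hstep']
    exact (hrb _ (hAM _ _)).2.2.1
  have hWm : ∀ k : ℕ, W (b k) ≤ mean (b k) / 3 := fun k =>
    le_of_tendsto_of_tendsto' (hLv k).w ((hLv k).mn.div_const 3) fun l =>
      (hwl _ (hAM _ _)).2.2.1
  have hW4 : ∀ k : ℕ, W (b k) ^ 4 ≤ W (b ((k + 1 : ℕ) : ℤ)) := by
    intro k
    refine le_of_tendsto_of_tendsto' ((hLv k).w.pow 4) (hLv ((k + 1 : ℕ) : ℤ)).w fun l => ?_
    rw [hstep']
    exact (hrb _ (hAM _ _)).2.2.2.2.1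
  have hWpos : ∀ k : ℕ, 0 < W (b k) := by
    intro k
    induction k with
    | zero => rw [Nat.cast_zero, hW0]; exact hw0
    | succ k ih => exact (pow_pos ih 4).trans_le (hW4 k)
  -- decay
  have hanti : ∀ k : ℕ, mean (b ((k + 1 : ℕ) : ℤ)) ≤ mean (b k) := by
    intro k
    have h1 := hdec k
    have h2 := a0_le (hLv k).law
    linarith
  have hanti' : Antitone fun k : ℕ => mean (b (k:ℤ)) := antitone_nat_of_succ_le hanti
  have hmz : mean (b (0:ℕ)) ≤ C0 := by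
    have h1 := hmneg 0
    simp only [Nat.cast_zero, neg_zero, mul_zero, sub_zero, zero_add, Real.log_one, add_zero,
      mul_one] at h1
    simpa using (abs_le.1 h1).2
  obtain ⟨k0, hk0⟩ : ∃ k0 : ℕ, mean (b (k0:ℤ)) ≤ 1 / 2 := by
    by_contra hcon
    push Not at hcon
    have h1 : ∀ k : ℕ, mean (b (k:ℤ)) ≤ C0 - k * (1 / (24 * C0)) := by
      intro k
      induction k with
      | zero => simpa using hmz
      | succ k ih =>
        have h2 := hsq k
        have h3 := hcon k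
        have h4 := hdec k
        have h5 : 1 / (4 * C0) ≤ 1 - b k 0 := by
          rw [div_le_iff₀ (by positivity)]
          nlinarith
        have h6 : 1 / (24 * C0) = (1 / (4 * C0)) / 6 := by field_simp; norm_num
        have e : (((k + 1 : ℕ) : ℝ)) * (1 / (24 * C0)) = k * (1 / (24 * C0)) + 1 / (24 * C0) := by
          push_cast; ring
        rw [e]
        rw [h6] at ih ⊢
        linarith
    obtain ⟨n, hn⟩ := exists_nat_gt (C0 * (24 * C0))
    have h2 := h1 n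
    have h3 := hcon n
    have h4 : C0 < n * (1 / (24 * C0)) := by
      rw [mul_one_div, lt_div_iff₀ (by positivity)]
      exact hn
    linarith
  have hfast : ∀ i : ℕ, mean (b ((k0 + i : ℕ) : ℤ)) ≤ (1 / 2 : ℝ) ^ (4 ^ i) := by
    intro i
    induction i with
    | zero => simpa using hk0
    | succ i ih =>
      have h1 := hquart (k0 + i)
      have h2 : mean (b ((k0 + i : ℕ) : ℤ)) ^ 4 ≤ ((1 / 2 : ℝ) ^ (4 ^ i)) ^ 4 :=
        pow_le_pow_left₀ (hm0 _) ih 4
      have e : ((1 / 2 : ℝ) ^ (4 ^ i)) ^ 4 = (1 / 2 : ℝ) ^ (4 ^ (i + 1)) := by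
        rw [← pow_mul, pow_succ 4 i]
      rw [e] at h2
      have h3 : (0:ℝ) ≤ mean (b ((k0 + i : ℕ) : ℤ)) ^ 4 := pow_nonneg (hm0 _) 4
      have e2 : k0 + (i + 1) = k0 + i + 1 := by ring
      rw [e2]
      linarith
  have hl2 : 0 < Real.log 2 := Real.log_pos (by norm_num)
  obtain ⟨c, hcd⟩ : ∃ c, c = Real.log 2 / 4 ^ k0 := ⟨_, rfl⟩
  have hc0 : 0 < c := by rw [hcd]; positivity
  have hexp : ∀ i : ℕ, (1 / 2 : ℝ) ^ (4 ^ i) = Real.exp (-c * 4 ^ (k0 + i)) := by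
    intro i
    have h1 : (1 / 2 : ℝ) = Real.exp (-Real.log 2) := by
      rw [Real.exp_neg, Real.exp_log (by norm_num)]; norm_num
    rw [h1, ← Real.exp_nat_mul, hcd]
    congr 1
    push_cast
    rw [pow_add]
    field_simp
  have hmexp : ∀ k : ℕ, k0 ≤ k → mean (b (k:ℤ)) ≤ Real.exp (-c * 4 ^ k) := by
    intro k hk
    obtain ⟨i, rfl⟩ := Nat.exists_eq_add_of_le hk
    rw [← hexp]
    exact hfast i
  have hdecay : ∀ k : ℕ, mean (b (k:ℤ)) ≤ (2 * C0 + 1) * Real.exp (-c * 4 ^ k) := by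
    intro k
    have he : 0 < Real.exp (-c * 4 ^ k) := Real.exp_pos _
    rcases le_or_gt k0 k with hk | hk
    · refine (hmexp k hk).trans ?_
      nlinarith
    · have h1 : mean (b (k:ℤ)) ≤ C0 := (hanti' (Nat.zero_le k)).trans hmz
      have h2 : (1 / 2 : ℝ) ≤ Real.exp (-c * 4 ^ k) := by
        have h3 := hexp 0
        simp only [pow_zero, pow_one, add_zero] at h3
        rw [h3, Real.exp_le_exp]
        have h4 : (4:ℝ) ^ k ≤ 4 ^ k0 := pow_le_pow_right₀ (by norm_num) hk.le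
        nlinarith
      nlinarith
  refine ⟨2 * C0 + 1, β, ν, b, by linarith, hβ, hβW, fun N => ?_, hν, fun k => (hLv k).law,
    fun k => (hLv k).sm, hconv, hrec, hW0, fun j => ?_, fun j hj => hpow j (by linarith),
    fun k => one_sub_le_mean (hLv k).law (hLv k).sm, ⟨c, hc0, hdecay⟩, ?_⟩
  · refine (hb N).1.trans (mul_le_mul_of_nonneg_right (by linarith) ?_)
    have : 0 ≤ Real.log ((N:ℝ) + 1) :=
      Real.log_nonneg (by have : (0:ℝ) ≤ N := Nat.cast_nonneg N; linarith)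
    linarith
  · refine (hmneg j).trans (mul_le_mul_of_nonneg_right (by linarith) ?_)
    have : 0 ≤ Real.log ((j:ℝ) + 1) :=
      Real.log_nonneg (by have : (0:ℝ) ≤ j := Nat.cast_nonneg j; linarith)
    linarith
  · -- the string tension
    have hx : Antitone fun n : ℕ => -Real.log (W (b n)) / 4 ^ n := by
      refine antitone_nat_of_succ_le fun n => ?_
      have h1 := Real.log_le_log (pow_pos (hWpos n) 4) (hW4 n)
      rw [Real.log_pow, Nat.cast_ofNat] at h1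
      rw [div_le_div_iff₀ (by positivity) (by positivity), pow_succ]
      have h2 : (0:ℝ) < 4 ^ n := by positivity
      nlinarith
    have hlow : ∀ n : ℕ, c ≤ -Real.log (W (b n)) / 4 ^ n := by
      intro n
      refine le_trans ?_ (hx (Nat.le_add_left n k0))
      have h1 : W (b ((k0 + n : ℕ) : ℤ)) ≤ Real.exp (-c * 4 ^ (k0 + n)) := by
        have h2 := hWm (k0 + n)
        have h3 := hmexp (k0 + n) (Nat.le_add_right _ _)
        have h4 := hm0 (k0 + n)
        linarith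
      have h2 := Real.log_le_log (hWpos (k0 + n)) h1
      rw [Real.log_exp] at h2
      rw [le_div_iff₀ (by positivity)]
      linarith
    have hbdd : BddBelow (Set.range fun n : ℕ => -Real.log (W (b n)) / 4 ^ n) :=
      ⟨c, by rintro _ ⟨n, rfl⟩; exact hlow n⟩
    exact ⟨_, hc0.trans_le (le_ciInf hlow), tendsto_atTop_ciInf hx hbdd⟩

end Pool.Agent.Q291.MK
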