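import Pool.Agent.Q291.MK.Stm2

/-!
# Job BETA: the bare coupling as a function of the number of scales
-/

namespace Pool.Agent.Q291.MK

open Filter Topology

namespace BetaAux

lemma vr_eq {a : ℕ → ℝ} (ha : AM a) : vr a = q2 a - mean a ^ 2 := by
  unfold vr
  have h1 : PB (fun k : ℕ => (k:ℝ) ^ 2) := PB.id.pow 2
  have h2 : PB (fun k : ℕ => 2 * mean a * (k:ℝ)) := (PB.const (2 * mean a)).mul PB.id
  have h3 : PB (fun _ : ℕ => mean a ^ 2) := PB.const _
  have e : (fun k : ℕ => ((k:ℝ) - mean a) ^ 2) =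
      fun k : ℕ => ((k:ℝ) ^ 2 - 2 * mean a * (k:ℝ)) + mean a ^ 2 := by
    funext k; ring
  rw [e, ha.E_add (h1.sub h2) h3, ha.E_sub h1 h2, E_const_mul, ha.toLaw.E_const]
  have : E a (fun k : ℕ => (k:ℝ)) = mean a := rfl
  rw [this]
  unfold q2
  ring

lemma law_T (hc : P_CONT) {a : ℕ → ℝ} (ha : Law a) : Law (T a) :=
  (hc (fun _ => a) a (fun _ => ha) ha (fun _ => tendsto_const_nhds)).2.2.2.2.1

lemma law_S (hc : P_CONT) {a : ℕ → ℝ} (ha : Law a) : Law (S a) :=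
  (hc (fun _ => a) a (fun _ => ha) ha (fun _ => tendsto_const_nhds)).2.2.2.2.2.1

lemma law_R (hc : P_CONT) {a : ℕ → ℝ} (ha : Law a) : Law (R a) :=
  law_S hc (law_S hc (law_T hc (law_T hc ha)))

lemma cont_R (hc : P_CONT) {a : ℕ → ℕ → ℝ} {b : ℕ → ℝ} (ha : ∀ n, Law (a n)) (hb : Law b)
    (h : ∀ k, Tendsto (fun n => a n k) atTop (𝓝 (b k))) :
    ∀ k, Tendsto (fun n => R (a n) k) atTop (𝓝 (R b k)) := by
  have h1 := (hc a b ha hb h).2.2.1
  have h2 := (hc (fun n => T (a n)) (T b) (fun n => law_T hc (ha n)) (law_T hc hb) h1).2.2.1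
  have h3 := (hc (fun n => T (T (a n))) (T (T b)) (fun n => law_T hc (law_T hc (ha n)))
    (law_T hc (law_T hc hb)) h2).2.2.2.1
  exact (hc (fun n => S (T (T (a n)))) (S (T (T b)))
    (fun n => law_S hc (law_T hc (law_T hc (ha n))))
    (law_S hc (law_T hc (law_T hc hb))) h3).2.2.2.1

lemma law_iter (hc : P_CONT) {a : ℕ → ℝ} (ha : Law a) (N : ℕ) : Law (R^[N] a) := by
  induction N with
  | zero => exact ha
  | succ N ih => rw [Function.iterate_succ_apply']; exact law_R hc ih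

lemma cont_iter (hc : P_CONT) {a : ℕ → ℕ → ℝ} {b : ℕ → ℝ} (ha : ∀ n, Law (a n)) (hb : Law b)
    (h : ∀ k, Tendsto (fun n => a n k) atTop (𝓝 (b k))) (N : ℕ) :
    ∀ k, Tendsto (fun n => (R^[N] (a n)) k) atTop (𝓝 ((R^[N] b) k)) := by
  induction N with
  | zero => exact h
  | succ N ih =>
    intro k
    simp only [Function.iterate_succ_apply']
    exact cont_R hc (fun n => law_iter hc (ha n) N) (law_iter hc hb N) ih k

lemma contW (hp : P_POIS) (hc : P_CONT) (N : ℕ) :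
    ContinuousOn (fun m : ℝ => W (R^[N] (pois m))) (Set.Ici 0) := by
  rw [continuousOn_iff_continuous_domRestrict, continuous_iff_continuousAt]
  intro x
  rw [ContinuousAt, tendsto_iff_seq_tendsto]
  intro u hu
  have hlaw : ∀ y : Set.Ici (0:ℝ), Law (pois (y:ℝ)) := fun y => (hp y y.2).1.toLaw
  have hpk : ∀ k, Tendsto (fun n => pois (u n : ℝ) k) atTop (𝓝 (pois (x:ℝ) k)) := by
    intro k
    have hcont : Continuous fun m : ℝ => pois m k := by
      unfold pois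
      fun_prop
    exact (hcont.tendsto _).comp ((continuous_subtype_val.tendsto x).comp hu)
  have h1 := cont_iter hc (fun n => hlaw (u n)) (hlaw x) hpk N
  exact (hc (fun n => R^[N] (pois (u n : ℝ))) (R^[N] (pois (x:ℝ)))
    (fun n => law_iter hc (hlaw (u n)) N) (law_iter hc (hlaw x) N) h1).2.2.2.2.2.2

lemma am_iter (hrb : P_RB) {a : ℕ → ℝ} (ha : AM a) (N : ℕ) : AM (R^[N] a) := by
  induction N with
  | zero => exact ha
  | succ N ih => rw [Function.iterate_succ_apply']; exact (hrb _ ih).1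

lemma a0_le {a : ℕ → ℝ} (ha : Law a) : a 0 ≤ 1 := by
  have := ha.one.summable.le_tsum 0 (fun k _ => ha.nn k)
  rwa [ha.one.tsum_eq] at this

lemma W_iter_ge (hrb : P_RB) (hwl : P_WL) {a : ℕ → ℝ} (ha : AM a) (N : ℕ) :
    W a ^ (4 ^ N) ≤ W (R^[N] a) := by
  induction N with
  | zero => simp
  | succ N ih =>
    rw [Function.iterate_succ_apply', pow_succ, pow_mul]
    have h1 := (hrb _ (am_iter hrb ha N)).2.2.2.2.1
    have h0 : 0 ≤ W a := (hwl a ha).1
    exact (pow_le_pow_left₀ (pow_nonneg h0 _) ih 4).trans h1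

lemma mean_iter_le (hrb : P_RB) {a : ℕ → ℝ} (ha : AM a) (N : ℕ) :
    mean (R^[N] a) ≤ mean a := by
  induction N with
  | zero => simp
  | succ N ih =>
    rw [Function.iterate_succ_apply']
    have h1 := (hrb _ (am_iter hrb ha N)).2.1
    have h2 := a0_le (am_iter hrb ha N).toLaw
    linarith

lemma pois_AM (hp : P_POIS) {m : ℝ} (hm : 0 < m) : AM (pois m) ∧ pois m 0 < 1 := by
  refine ⟨(hp m hm.le).1, ?_⟩
  unfold pois
  simp only [pow_zero, mul_one, Nat.factorial_zero, Nat.cast_one, div_one]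
  rw [Real.exp_lt_one_iff]
  linarith

lemma exists_beta (hp : P_POIS) (hrb : P_RB) (horb : P_ORB) (hc : P_CONT) (hwl : P_WL)
    {w : ℝ} (hw0 : 0 < w) (hw1 : w < 1) (N : ℕ) :
    ∃ β : ℝ, 0 < β ∧ W (R^[N] (pois (2 * β))) = w := by
  obtain ⟨C3, C8, M, D, Q, hC3, hC8, hD, hM, hQ, horb⟩ := horb
  have hF0 : W (R^[N] (pois 0)) = 0 := by
    have h0 := (hp 0 le_rfl)
    have h1 := mean_iter_le hrb h0.1 N
    have h2 := hwl _ (am_iter hrb h0.1 N)
    rw [h0.2.1] at h1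
    linarith [h2.1, h2.2.2.1]
  set B : ℝ := M + 4 ^ N * D / (1 - w) with hB
  have h1w : 0 < 1 - w := by linarith
  have hM0 : 0 < M := by linarith
  have hx : 0 ≤ 4 ^ N * D / (1 - w) := by positivity
  have hB0 : 0 < B := by rw [hB]; linarith
  have hFB : w ≤ W (R^[N] (pois B)) := by
    have hpB := pois_AM hp hB0
    have h1 := (horb B hB0 0).1
    simp only [Function.iterate_zero, id_eq] at h1
    have hmB : mean (pois B) = B := (hp B hB0.le).2.1
    have h2 := (h1 (by rw [hmB, hB]; linarith)).2.1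
    rw [hmB] at h2
    refine le_trans ?_ (W_iter_ge hrb hwl hpB.1 N)
    have hDB : D / B ≤ (1 - w) / 4 ^ N := by
      rw [div_le_div_iff₀ hB0 (by positivity)]
      have : 4 ^ N * D ≤ (1 - w) * B := by
        rw [hB, mul_add, mul_div_cancel₀ _ h1w.ne']
        have : 0 ≤ (1 - w) * M := by positivity
        linarith
      linarith
    have h3 : 1 - (1 - w) / 4 ^ N ≤ W (pois B) := by linarith
    have h4 : (0:ℝ) ≤ 1 - (1 - w) / 4 ^ N := by
      have : (1 - w) / 4 ^ N ≤ 1 := by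
        rw [div_le_one (by positivity)]
        have : (1:ℝ) ≤ 4 ^ N := one_le_pow₀ (by norm_num)
        linarith
      linarith
    refine le_trans ?_ (pow_le_pow_left₀ h4 h3 _)
    have h5 := one_add_mul_le_pow (a := -((1 - w) / 4 ^ N)) (by linarith) (4 ^ N)
    have h6 : 1 + ((4 ^ N : ℕ) : ℝ) * -((1 - w) / 4 ^ N) = w := by
      push_cast
      field_simp
      ring
    rw [h6] at h5
    rwa [← sub_eq_add_neg] at h5
  have hcont : ContinuousOn (fun m : ℝ => W (R^[N] (pois m))) (Set.Icc 0 B) :=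
    (contW hp hc N).mono (fun x hx => hx.1)
  have hmem : w ∈ Set.Icc (W (R^[N] (pois 0))) (W (R^[N] (pois B))) := ⟨by rw [hF0]; exact hw0.le, hFB⟩
  obtain ⟨m, hm, hmw⟩ := intermediate_value_Icc hB0.le hcont hmem
  have hm0 : m ≠ 0 := by
    rintro rfl
    simp only at hmw
    rw [hF0] at hmw
    linarith
  refine ⟨m / 2, by have := lt_of_le_of_ne hm.1 (Ne.symm hm0); linarith, ?_⟩
  rw [mul_div_cancel₀ _ (by norm_num : (2:ℝ) ≠ 0)]
  exact hmw

/-- The first bound: the means along the orbit. -/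
lemma means (hcr : P_CRUDE) (hp : P_POIS) (hrb : P_RB) (hst : P_ST)
    (hwl : P_WL) {C3 C8 M D Q : ℝ} (hD : 0 < D) (hM : 10 + 2 * D ≤ M)
    (hQ : M ^ 2 + M ≤ Q) (horb : ∀ m : ℝ, 0 < m → ∀ n : ℕ,
  (M ≤ mean (R^[n] (pois m)) → Cls C3 C8 (R^[n] (pois m)) ∧
    1 - D / mean (R^[n] (pois m)) ≤ W (R^[n] (pois m)) ∧
    ∀ j : ℕ, j ≤ n → |mean (R^[j] (pois m)) - mean (R^[n + 1] (pois m)) - 2 * (n + 1 - j)| ≤
      2 + D * (1 + Real.log (n + 1 - j))) ∧
  (mean (R^[n] (pois m)) < M → q2 (R^[n] (pois m)) ≤ Q)) {w : ℝ} (hw0 : 0 < w) (hw1 : w < 1)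
    (N : ℕ) {m : ℝ} (hm : 0 < m) (hW : W (R^[N] (pois m)) = w) :
    mean (R^[N] (pois m)) ≤ max M (D / (1 - w)) ∧
    ∀ j : ℕ, j ≤ N → |mean (R^[N - j] (pois m)) - 2 * j| ≤
      (max M (D / (1 - w)) + 2 * (2 * Q * M / (3 * w ^ 2)) + 2 + D) * (1 + Real.log (j + 1)) := by
  have hpm := pois_AM hp hm
  obtain ⟨sAM, s0, smono, -, sW, -, -, -⟩ := hst (pois m) hpm.1 hpm.2
  have h1w : 0 < 1 - w := by linarith
  have hM0 : 0 < M := by linarith
  have hQ0 : 0 < Q := by nlinarith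
  have hanti : Antitone fun n => mean (R^[n] (pois m)) := antitone_nat_of_succ_le smono
  have hmw : 3 * w ≤ mean (R^[N] (pois m)) := by
    have := (hwl _ (sAM N)).2.2.1
    rw [hW] at this
    linarith
  have hMw : mean (R^[N] (pois m)) ≤ max M (D / (1 - w)) := by
    rcases le_or_gt M (mean (R^[N] (pois m))) with h | h
    · have h1 := ((horb m hm N).1 h).2.1
      rw [hW] at h1
      have hμ : 0 < mean (R^[N] (pois m)) := by linarith
      refine le_max_of_le_right ?_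
      rw [le_div_iff₀ h1w]
      have h2 : (1 - w) ≤ D / mean (R^[N] (pois m)) := by linarith
      rw [le_div_iff₀ hμ] at h2
      linarith
    · exact le_max_of_le_left h.le
  refine ⟨hMw, ?_⟩
  obtain ⟨Mw, hMwd⟩ : ∃ Mw, Mw = max M (D / (1 - w)) := ⟨_, rfl⟩
  obtain ⟨N1, hN1d⟩ : ∃ N1, N1 = 2 * Q * M / (3 * w ^ 2) := ⟨_, rfl⟩
  rw [← hMwd] at hMw ⊢
  rw [← hN1d]
  have hMMw : M ≤ Mw := by rw [hMwd]; exact le_max_left _ _
  have hN1 : 0 ≤ N1 := by rw [hN1d]; positivity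
  intro j hj
  have hlog0 : 0 ≤ Real.log ((j:ℝ) + 1) := Real.log_nonneg (by have : (0:ℝ) ≤ j := Nat.cast_nonneg j; linarith)
  have hfin : ∀ X : ℝ, X ≤ Mw + 2 * N1 + 2 + D * (1 + Real.log ((j:ℝ) + 1)) →
      X ≤ (Mw + 2 * N1 + 2 + D) * (1 + Real.log ((j:ℝ) + 1)) := by
    intro X hX
    refine hX.trans ?_
    have : 0 ≤ (Mw + 2 * N1 + 2) * Real.log ((j:ℝ) + 1) := mul_nonneg (by linarith) hlog0
    linarith [this]
  have hmean0 : ∀ n, 0 ≤ mean (R^[n] (pois m)) := fun n => (hcr _ (sAM n)).1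
  by_cases hex : ∃ n, n < N ∧ mean (R^[n] (pois m)) < M
  · classical
    obtain ⟨n1, hn1⟩ : ∃ n1, n1 = Nat.find hex := ⟨_, rfl⟩
    have hs := Nat.find_spec hex
    rw [← hn1] at hs
    have hmin : ∀ n, n < n1 → M ≤ mean (R^[n] (pois m)) := by
      intro n hn
      by_contra hlt
      push Not at hlt
      rw [hn1] at hn
      exact Nat.find_min hex hn ⟨by omega, hlt⟩
    -- number of steps below M
    have hstep : ∀ k : ℕ, n1 + k ≤ N →
        mean (R^[n1 + k] (pois m)) ≤ mean (R^[n1] (pois m)) - k * (3 * w ^ 2 / (2 * Q)) := by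
      intro k
      induction k with
      | zero => intro _; simp
      | succ k ih =>
        intro hk
        have ih' := ih (by omega)
        have hlt : mean (R^[n1 + k] (pois m)) < M := (hanti (Nat.le_add_right n1 k)).trans_lt hs.2
        have hq := (horb m hm (n1 + k)).2 hlt
        have hsq := (hcr _ (sAM (n1 + k))).2.2.1
        have hge : 3 * w ≤ mean (R^[n1 + k] (pois m)) := hmw.trans (hanti (by omega))
        have hdec := (hrb _ (sAM (n1 + k))).2.1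
        rw [← Function.iterate_succ_apply' (f := R)] at hdec
        have ha0 := a0_le (sAM (n1 + k)).toLaw
        have h1 : mean (R^[n1 + k] (pois m)) ^ 2 ≤ (1 - (R^[n1 + k] (pois m)) 0) * Q :=
          hsq.trans (mul_le_mul_of_nonneg_left hq (by linarith))
        have h2 : (3 * w) ^ 2 ≤ mean (R^[n1 + k] (pois m)) ^ 2 := pow_le_pow_left₀ (by linarith) hge 2
        have h3 : 9 * w ^ 2 / Q ≤ 1 - (R^[n1 + k] (pois m)) 0 := by
          rw [div_le_iff₀ hQ0]
          nlinarith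
        have h4 : 3 * w ^ 2 / (2 * Q) = (9 * w ^ 2 / Q) / 6 := by
          field_simp
          ring
        have e : n1 + (k + 1) = (n1 + k) + 1 := by ring
        rw [e, h4]
        push_cast
        have e2 : (n1 + k).succ = n1 + k + 1 := rfl
        rw [e2] at hdec
        rw [h4] at ih'
        linarith
    have hNn1 : ((N - n1 : ℕ) : ℝ) ≤ N1 := by
      have h1 := hstep (N - n1) (by omega)
      rw [Nat.add_sub_cancel' (by omega)] at h1
      have h2 : ((N - n1 : ℕ) : ℝ) * (3 * w ^ 2 / (2 * Q)) ≤ M := by linarith [hmean0 N]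
      rw [hN1d, le_div_iff₀ (by positivity)]
      have h3 : ((N - n1 : ℕ) : ℝ) * (3 * w ^ 2) = ((N - n1 : ℕ) : ℝ) * (3 * w ^ 2 / (2 * Q)) * (2 * Q) := by
        field_simp
      rw [h3]
      calc _ ≤ M * (2 * Q) := mul_le_mul_of_nonneg_right h2 (by linarith)
        _ = _ := by ring
    rcases le_or_gt j (N - n1) with hjn | hjn
    · -- below M
      apply hfin
      have h1 : mean (R^[N - j] (pois m)) ≤ mean (R^[n1] (pois m)) := hanti (by omega)
      have h2 : (j:ℝ) ≤ N1 := le_trans (by exact_mod_cast hjn) hNn1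
      have h3 := hmean0 (N - j)
      have h4 : 0 ≤ D * (1 + Real.log ((j:ℝ) + 1)) := by positivity
      have h5 : (0:ℝ) ≤ j := Nat.cast_nonneg j
      rw [abs_le]
      constructor <;> linarith [hs.2]
    · apply hfin
      have hn1pos : 1 ≤ n1 := by omega
      have h1 := ((horb m hm (n1 - 1)).1 (hmin (n1 - 1) (by omega))).2.2 (N - j) (by omega)
      have e1 : n1 - 1 + 1 = n1 := by omega
      rw [e1] at h1
      have e2 : (((n1 - 1 : ℕ) : ℝ) + 1 - ((N - j : ℕ) : ℝ)) = (j:ℝ) - ((N - n1 : ℕ) : ℝ) := by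
        rw [Nat.cast_sub hn1pos, Nat.cast_sub hj, Nat.cast_sub hs.1.le]
        push_cast
        ring
      rw [e2] at h1
      have h6 : (0:ℝ) ≤ ((N - n1 : ℕ) : ℝ) := Nat.cast_nonneg _
      have h7 : (1:ℝ) ≤ (j:ℝ) - ((N - n1 : ℕ) : ℝ) := by
        have : N - n1 + 1 ≤ j := hjn
        have : ((N - n1 : ℕ) : ℝ) + 1 ≤ j := by exact_mod_cast this
        linarith
      have h8 : Real.log ((j:ℝ) - ((N - n1 : ℕ) : ℝ)) ≤ Real.log ((j:ℝ) + 1) :=
        Real.log_le_log (by linarith) (by linarith)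
      have h9 : D * (1 + Real.log ((j:ℝ) - ((N - n1 : ℕ) : ℝ))) ≤ D * (1 + Real.log ((j:ℝ) + 1)) :=
        mul_le_mul_of_nonneg_left (by linarith) hD.le
      have h10 := hmean0 n1
      rw [abs_le] at h1 ⊢
      constructor <;> linarith [hs.2, h1.1, h1.2]
  · push Not at hex
    apply hfin
    have h4 : 0 ≤ D * (1 + Real.log ((j:ℝ) + 1)) := by positivity
    rcases Nat.eq_zero_or_pos j with rfl | hjpos
    · simp only [Nat.sub_zero, Nat.cast_zero, mul_zero, sub_zero, zero_add, Real.log_one] at h4 ⊢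
      rw [abs_of_nonneg (hmean0 N)]
      linarith
    · have h1 := ((horb m hm (N - 1)).1 (hex (N - 1) (by omega))).2.2 (N - j) (by omega)
      have e1 : N - 1 + 1 = N := by omega
      rw [e1] at h1
      have e2 : (((N - 1 : ℕ) : ℝ) + 1 - ((N - j : ℕ) : ℝ)) = (j:ℝ) := by
        rw [Nat.cast_sub (by omega : 1 ≤ N), Nat.cast_sub hj]
        push_cast
        ring
      rw [e2] at h1
      have hj1 : (1:ℝ) ≤ j := by exact_mod_cast hjpos
      have h8 : Real.log (j:ℝ) ≤ Real.log ((j:ℝ) + 1) :=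
        Real.log_le_log (by linarith) (by linarith)
      have h9 : D * (1 + Real.log (j:ℝ)) ≤ D * (1 + Real.log ((j:ℝ) + 1)) :=
        mul_le_mul_of_nonneg_left (by linarith) hD.le
      have h10 := hmean0 N
      rw [abs_le] at h1 ⊢
      constructor <;> linarith [h1.1, h1.2]

end BetaAux

open BetaAux in
theorem t_BETA (hcr : P_CRUDE) (_h1 : P_HYP1) (hp : P_POIS) (hrb : P_RB) (hst : P_ST)
    (horb : P_ORB) (hc : P_CONT) (hwl : P_WL) (_hww : P_WW) : P_BETA := by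
  intro w hw0 hw1
  have hex := fun N => exists_beta hp hrb horb hc hwl hw0 hw1 N
  obtain ⟨C3, C8, M, D, Q, hC3, hC8, hD, hM, hQ, horb⟩ := horb
  have h1w : 0 < 1 - w := by linarith
  have hM0 : 0 < M := by linarith
  have hQ0 : 0 < Q := by nlinarith
  obtain ⟨Mw, hMwd⟩ : ∃ Mw, Mw = max M (D / (1 - w)) := ⟨_, rfl⟩
  obtain ⟨C1, hC1d⟩ : ∃ C1, C1 = Mw + 2 * (2 * Q * M / (3 * w ^ 2)) + 2 + D := ⟨_, rfl⟩
  have hMMw : M ≤ Mw := by rw [hMwd]; exact le_max_left _ _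
  have hN1 : 0 ≤ 2 * Q * M / (3 * w ^ 2) := by positivity
  have hC1M : Mw ≤ C1 := by rw [hC1d]; linarith
  have hC1 : 1 ≤ C1 := by linarith
  obtain ⟨Cq, hCq⟩ : ∃ Cq, Cq = 2 * (2 + C1) ^ 2 + Q := ⟨_, rfl⟩
  have hCq0 : 0 < Cq := by rw [hCq]; positivity
  refine ⟨C1 + Cq + (M + 1 + C1 ^ 2) + (Mw ^ 2 + Mw), by
    have h1 := sq_nonneg C1
    have h2 := sq_nonneg Mw
    linarith, fun N => ⟨hex N, ?_⟩⟩
  obtain ⟨C, hC⟩ : ∃ C, C = C1 + Cq + (M + 1 + C1 ^ 2) + (Mw ^ 2 + Mw) := ⟨_, rfl⟩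
  rw [← hC]
  have hMw0 : 0 < Mw := by linarith
  have hsq1 : 0 ≤ C1 ^ 2 := sq_nonneg _
  have hsq2 : 0 ≤ Mw ^ 2 := sq_nonneg _
  intro β hβ hW
  have hm : 0 < 2 * β := by linarith
  have hpm := pois_AM hp hm
  obtain ⟨sAM, s0, smono, -, sW, -, -, -⟩ := hst (pois (2 * β)) hpm.1 hpm.2
  obtain ⟨hμN, hμ⟩ := means hcr hp hrb hst hwl hD hM hQ horb hw0 hw1 N hm hW
  rw [← hMwd] at hμN
  rw [← hMwd, ← hC1d] at hμ
  have hmean0 : ∀ n, 0 ≤ mean (R^[n] (pois (2 * β))) := fun n => (hcr _ (sAM n)).1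
  have hlogj : ∀ j : ℕ, 0 ≤ Real.log ((j:ℝ) + 1) := fun j =>
    Real.log_nonneg (by have : (0:ℝ) ≤ j := Nat.cast_nonneg j; linarith)
  have hlogj' : ∀ j : ℕ, Real.log ((j:ℝ) + 1) ≤ j := fun j => by
    have := Real.log_le_sub_one_of_pos (show (0:ℝ) < (j:ℝ) + 1 by positivity)
    linarith
  have hC1C : C1 ≤ C := by rw [hC]; linarith
  have hq : ∀ j : ℕ, j ≤ N → q2 (R^[N - j] (pois (2 * β))) ≤ Cq * (1 + (j:ℝ)) ^ 2 := by
    intro j hj
    have hj0 : (0:ℝ) ≤ j := Nat.cast_nonneg j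
    have hb1 : (1:ℝ) ≤ (1 + (j:ℝ)) ^ 2 := one_le_pow₀ (by linarith)
    rcases le_or_gt M (mean (R^[N - j] (pois (2 * β)))) with h | h
    · have hcls := ((horb _ hm (N - j)).1 h).1
      have h1 := vr_eq (sAM (N - j))
      have h2 := hcls.vr_le
      have h3 := hμ j hj
      rw [abs_le] at h3
      have h4 : mean (R^[N - j] (pois (2 * β))) ≤ (2 + C1) * (1 + (j:ℝ)) := by
        have h5 : C1 * (1 + Real.log ((j:ℝ) + 1)) ≤ C1 * (1 + j) :=
          mul_le_mul_of_nonneg_left (by linarith [hlogj' j]) (by linarith)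
        have h6 : (2 + C1) * (1 + (j:ℝ)) = 2 + 2 * j + C1 * (1 + j) := by ring
        linarith [h3.2]
      have h5 : (1:ℝ) ≤ (2 + C1) * (1 + (j:ℝ)) := by nlinarith
      have h7 : mean (R^[N - j] (pois (2 * β))) ^ 2 ≤ ((2 + C1) * (1 + (j:ℝ))) ^ 2 :=
        pow_le_pow_left₀ (hmean0 _) h4 2
      have h8 : (2 + C1) * (1 + (j:ℝ)) ≤ ((2 + C1) * (1 + (j:ℝ))) ^ 2 := by nlinarith
      have h9 : 0 ≤ Q * (1 + (j:ℝ)) ^ 2 := by positivity
      have h10 : Cq * (1 + (j:ℝ)) ^ 2 = 2 * ((2 + C1) * (1 + (j:ℝ))) ^ 2 + Q * (1 + (j:ℝ)) ^ 2 := by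
        rw [hCq]; ring
      rw [h10]
      linarith
    · have h1 := (horb _ hm (N - j)).2 h
      have h2 : Q ≤ Q * (1 + (j:ℝ)) ^ 2 := le_mul_of_one_le_right hQ0.le hb1
      have h3 : 0 ≤ 2 * (2 + C1) ^ 2 * (1 + (j:ℝ)) ^ 2 := by positivity
      have h10 : Cq * (1 + (j:ℝ)) ^ 2 = 2 * (2 + C1) ^ 2 * (1 + (j:ℝ)) ^ 2 + Q * (1 + (j:ℝ)) ^ 2 := by
        rw [hCq]; ring
      rw [h10]
      linarith
  refine ⟨?_, ?_, ?_, ?_, ?_⟩
  · have h1 := hμ N le_rfl
    simp only [Nat.sub_self, Function.iterate_zero, id_eq] at h1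
    rw [(hp (2 * β) hm.le).2.1] at h1
    have h2 : |β - N| ≤ C1 * (1 + Real.log ((N:ℝ) + 1)) := by
      have e : 2 * β - 2 * (N:ℝ) = 2 * (β - N) := by ring
      rw [e, abs_mul, abs_two] at h1
      have := abs_nonneg (β - N)
      linarith
    refine h2.trans (mul_le_mul_of_nonneg_right hC1C ?_)
    linarith [hlogj N]
  · intro j hj
    refine (hμ j hj).trans (mul_le_mul_of_nonneg_right hC1C ?_)
    linarith [hlogj j]
  · intro j hj
    refine (hq j hj).trans (mul_le_mul_of_nonneg_right ?_ (sq_nonneg _))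
    rw [hC]; linarith
  · intro j hj hCj
    have h3 := hμ j hj
    rw [abs_le] at h3
    have hlog : C1 * Real.log ((j:ℝ) + 1) ≤ (j:ℝ) + 1 - C1 + C1 * C1 := by
      have hC10 : 0 < C1 := by linarith
      have h5 := Real.log_le_sub_one_of_pos (show (0:ℝ) < ((j:ℝ) + 1) / C1 by positivity)
      rw [Real.log_div (by positivity) hC10.ne'] at h5
      have h6 : Real.log C1 ≤ C1 := (Real.log_le_self hC10.le)
      have h7 : Real.log ((j:ℝ) + 1) ≤ ((j:ℝ) + 1) / C1 - 1 + C1 := by linarith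
      have h8 := mul_le_mul_of_nonneg_left h7 hC10.le
      have h9 : C1 * (((j:ℝ) + 1) / C1 - 1 + C1) = (j:ℝ) + 1 - C1 + C1 * C1 := by
        field_simp
      rw [h9] at h8
      exact h8
    have hge : M ≤ mean (R^[N - j] (pois (2 * β))) := by
      have h4 : M + 1 + C1 ^ 2 ≤ j := by
        refine le_trans ?_ hCj
        rw [hC]; linarith
      have h5 : C1 * (1 + Real.log ((j:ℝ) + 1)) = C1 + C1 * Real.log ((j:ℝ) + 1) := by ring
      have h6 : C1 ^ 2 = C1 * C1 := sq C1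
      linarith [h3.1]
    exact ((horb _ hm (N - j)).1 hge).1.vr_le
  · intro j
    have h1 := hst (R^[N] (pois (2 * β))) (sAM N) (s0 N)
    have h2 := h1.2.2.2.1 j
    rw [← Function.iterate_add_apply, add_comm j N] at h2
    have h3 := hq 0 (Nat.zero_le N)
    simp only [Nat.sub_zero, Nat.cast_zero, add_zero, one_pow, mul_one] at h3
    have h4 : mean (R^[N] (pois (2 * β))) ^ 2 ≤ Mw ^ 2 := pow_le_pow_left₀ (hmean0 _) hμN 2
    rw [hC]
    linarith

end Pool.Agent.Q291.MK
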