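import Pool.Agent.Q289.MK.Repr

/-!
# Linear combinations of two gamma variables: the derivative in the coefficient
-/

set_option autoImplicit false

open MeasureTheory ProbabilityTheory Filter Topology

namespace Q289.MK

/-- the lower incomplete gamma function -/
noncomputable def gam (a z : ℝ) : ℝ := ∫ s in (0 : ℝ)..z, s ^ (a - 1) * Real.exp (-s)

theorem gam_integrand {a : ℝ} (ha : 0 < a) :
    IntegrableOn (fun s : ℝ => s ^ (a - 1) * Real.exp (-s)) (Set.Ioi 0) := by
  have := Real.GammaIntegral_convergent ha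
  refine this.congr_fun (fun s _ => ?_) measurableSet_Ioi
  ring

theorem gam_intervalIntegrable {a : ℝ} (ha : 0 < a) {z : ℝ} (hz : 0 ≤ z) :
    IntervalIntegrable (fun s : ℝ => s ^ (a - 1) * Real.exp (-s)) volume 0 z := by
  rw [intervalIntegrable_iff_integrableOn_Ioc_of_le hz]
  exact (gam_integrand ha).mono_set Set.Ioc_subset_Ioi_self

theorem gam_eq {a z : ℝ} (hz : 0 ≤ z) :
    gam a z = ∫ s in Set.Ioc 0 z, s ^ (a - 1) * Real.exp (-s) := by
  unfold gam
  rw [intervalIntegral.integral_of_le hz]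

theorem gam_nonneg {a z : ℝ} (hz : 0 ≤ z) : 0 ≤ gam a z := by
  rw [gam_eq hz]
  exact setIntegral_nonneg measurableSet_Ioc fun s hs => by
    have := hs.1
    positivity

theorem gam_le_Gamma {a : ℝ} (ha : 0 < a) {z : ℝ} (hz : 0 ≤ z) : gam a z ≤ Real.Gamma a := by
  rw [gam_eq hz, Real.Gamma_eq_integral ha]
  have h1 : ∫ x in Set.Ioi 0, Real.exp (-x) * x ^ (a - 1) =
      ∫ s in Set.Ioi 0, s ^ (a - 1) * Real.exp (-s) :=
    setIntegral_congr_fun measurableSet_Ioi fun s _ => by ring
  rw [h1]
  refine setIntegral_mono_set (gam_integrand ha) ?_ (LE.le.eventuallyLE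
    Set.Ioc_subset_Ioi_self)
  filter_upwards [ae_restrict_mem measurableSet_Ioi] with s hs
  have hs' : 0 < s := hs
  simp only [Pi.zero_apply]
  positivity

theorem gam_hasDerivAt {a : ℝ} (ha : 0 < a) {z : ℝ} (hz : 0 < z) :
    HasDerivAt (gam a) (z ^ (a - 1) * Real.exp (-z)) z := by
  have hc : ContinuousAt (fun s : ℝ => s ^ (a - 1) * Real.exp (-s)) z := by
    refine ContinuousAt.mul ?_ (by fun_prop)
    exact Real.continuousAt_rpow_const _ _ (Or.inl hz.ne')
  refine intervalIntegral.integral_hasDerivAt_right (gam_intervalIntegrable ha hz.le) ?_ hc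
  refine ContinuousOn.stronglyMeasurableAtFilter isOpen_Ioi (s := Set.Ioi 0) ?_ z hz
  intro s hs
  have hs' : (0 : ℝ) < s := hs
  refine (ContinuousAt.mul ?_ (by fun_prop)).continuousWithinAt
  exact Real.continuousAt_rpow_const _ _ (Or.inl hs'.ne')

theorem lintegral_gam {a : ℝ} (ha : 0 < a) {z : ℝ} (hz : 0 ≤ z) :
    ∫⁻ s in Set.Ioc 0 z, ENNReal.ofReal (s ^ (a - 1) * Real.exp (-s)) =
      ENNReal.ofReal (gam a z) := by
  rw [gam_eq hz, ofReal_integral_eq_lintegral_ofReal
    ((gam_integrand ha).mono_set Set.Ioc_subset_Ioi_self)]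
  filter_upwards [ae_restrict_mem measurableSet_Ioc] with s hs
  have hs' : 0 < s := hs.1
  simp only [Pi.zero_apply]
  positivity

theorem lintegral_Gamma {a : ℝ} (ha : 0 < a) :
    ∫⁻ s in Set.Ioi 0, ENNReal.ofReal (s ^ (a - 1) * Real.exp (-s)) =
      ENNReal.ofReal (Real.Gamma a) := by
  rw [Real.Gamma_eq_integral ha]
  have h1 : ∫ x in Set.Ioi 0, Real.exp (-x) * x ^ (a - 1) =
      ∫ s in Set.Ioi 0, s ^ (a - 1) * Real.exp (-s) :=
    setIntegral_congr_fun measurableSet_Ioi fun s _ => by ring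
  rw [h1, ofReal_integral_eq_lintegral_ofReal (gam_integrand ha)]
  filter_upwards [ae_restrict_mem measurableSet_Ioi] with s hs
  have hs' : 0 < s := hs
  simp only [Pi.zero_apply]
  positivity

theorem measurable_bw (r : ℝ) : Measurable (bw r) := by unfold bw; fun_prop

theorem total_mass {r : ℝ} (hr : 0 < r) : ENNReal.ofReal (1 / Real.Gamma r ^ 2) *
    ((∫⁻ w in Set.Ioi 0, ENNReal.ofReal (bw r w)) * ENNReal.ofReal (Real.Gamma (2 * r))) = 1 := by
  have h1 := prod_lintegral hr (h := fun _ => 1) measurable_const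
  have : IsProbabilityMeasure (gammaMeasure r 1) := isProbabilityMeasure_gammaMeasure hr one_pos
  rw [lintegral_const, measure_univ, mul_one] at h1
  simp only [mul_one] at h1
  rw [lintegral_Gamma (by positivity : 0 < 2 * r)] at h1
  rw [lintegral_mul_const'' _ (measurable_bw r).ennreal_ofReal.aemeasurable] at h1
  exact h1.symm

theorem bw_integrableOn {r : ℝ} (hr : 0 < r) : IntegrableOn (bw r) (Set.Ioi 0) := by
  refine ⟨(measurable_bw r).aestronglyMeasurable, ?_⟩
  rw [hasFiniteIntegral_iff_ofReal]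
  · have h1 := total_mass hr
    by_contra hcon
    rw [not_lt, top_le_iff] at hcon
    have h2 : ENNReal.ofReal (Real.Gamma (2 * r)) ≠ 0 := by
      rw [ENNReal.ofReal_ne_zero_iff]
      exact Real.Gamma_pos_of_pos (by positivity)
    have h3 : ENNReal.ofReal (1 / Real.Gamma r ^ 2) ≠ 0 := by
      rw [ENNReal.ofReal_ne_zero_iff]
      have := Real.Gamma_pos_of_pos hr
      positivity
    rw [hcon, ENNReal.top_mul h2, ENNReal.mul_top h3] at h1
    exact ENNReal.top_ne_one h1
  · filter_upwards [ae_restrict_mem measurableSet_Ioi] with w hw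
    exact (bw_pos hw).le

/-- the factor by which the sum is multiplied -/
noncomputable def mm (α w : ℝ) : ℝ := (1 + w) / (α + (2 - α) * w)

/-- the distribution function of `α X + (2 - α) Y` -/
noncomputable def FF (r t α : ℝ) : ℝ :=
  1 / Real.Gamma r ^ 2 * ∫ w in Set.Ioi 0, bw r w * gam (2 * r) (t * mm α w)

theorem den_pos {α w : ℝ} (h0 : 0 < α) (h2 : α < 2) (hw : 0 < w) : 0 < α + (2 - α) * w := by
  have : 0 < 2 - α := by linarith
  positivity

theorem mm_pos {α w : ℝ} (h0 : 0 < α) (h2 : α < 2) (hw : 0 < w) : 0 < mm α w := by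
  have := den_pos h0 h2 hw
  unfold mm; positivity

theorem prob_eq {r : ℝ} (hr : 0 < r) {t α : ℝ} (ht : 0 ≤ t) (h0 : 0 < α) (h2 : α < 2) :
    ((gammaMeasure r 1).prod (gammaMeasure r 1)).real {p | α * p.1 + (2 - α) * p.2 ≤ t} =
      FF r t α := by
  have hs : MeasurableSet {p : ℝ × ℝ | α * p.1 + (2 - α) * p.2 ≤ t} :=
    measurableSet_le (by fun_prop) measurable_const
  have h1 := prod_lintegral hr (h := {p : ℝ × ℝ | α * p.1 + (2 - α) * p.2 ≤ t}.indicator 1)
    (measurable_one.indicator hs)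
  rw [lintegral_indicator_one hs] at h1
  have hin : ∀ w ∈ Set.Ioi (0 : ℝ), ENNReal.ofReal (bw r w) *
      ∫⁻ s in Set.Ioi 0, ENNReal.ofReal (s ^ (2 * r - 1) * Real.exp (-s)) *
        {p : ℝ × ℝ | α * p.1 + (2 - α) * p.2 ≤ t}.indicator 1 (s / (1 + w), s * w / (1 + w)) =
      ENNReal.ofReal (bw r w * gam (2 * r) (t * mm α w)) := by
    intro w hw
    have hw' : 0 < w := hw
    have hQ := den_pos h0 h2 hw'
    have hm := mm_pos h0 h2 hw'
    have h3 : ∀ s ∈ Set.Ioi (0 : ℝ), ENNReal.ofReal (s ^ (2 * r - 1) * Real.exp (-s)) *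
        {p : ℝ × ℝ | α * p.1 + (2 - α) * p.2 ≤ t}.indicator 1 (s / (1 + w), s * w / (1 + w)) =
        (Set.Iic (t * mm α w)).indicator
          (fun s => ENNReal.ofReal (s ^ (2 * r - 1) * Real.exp (-s))) s := by
      intro s hs
      have hiff : (s / (1 + w), s * w / (1 + w)) ∈ {p : ℝ × ℝ | α * p.1 + (2 - α) * p.2 ≤ t} ↔
          s ∈ Set.Iic (t * mm α w) := by
        simp only [Set.mem_ofPred_eq, Set.mem_Iic]
        have e1 : α * (s / (1 + w)) + (2 - α) * (s * w / (1 + w)) =
            s * (α + (2 - α) * w) / (1 + w) := by field_simp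
        rw [e1, div_le_iff₀ (by positivity)]
        unfold mm
        rw [← mul_div_assoc, le_div_iff₀ hQ]
      by_cases h4 : s ∈ Set.Iic (t * mm α w)
      · rw [Set.indicator_of_mem h4, Set.indicator_of_mem (hiff.2 h4), Pi.one_apply, mul_one]
      · rw [Set.indicator_of_notMem h4, Set.indicator_of_notMem (fun h => h4 (hiff.1 h)),
          mul_zero]
    rw [setLIntegral_congr_fun measurableSet_Ioi h3, setLIntegral_indicator measurableSet_Iic,
      Set.inter_comm, Set.Ioi_inter_Iic, lintegral_gam (by positivity : 0 < 2 * r) (by positivity),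
      ← ENNReal.ofReal_mul (bw_pos hw').le]
  rw [setLIntegral_congr_fun measurableSet_Ioi hin] at h1
  unfold FF
  have hnn : 0 ≤ᵐ[volume.restrict (Set.Ioi 0)] fun w => bw r w * gam (2 * r) (t * mm α w) := by
    filter_upwards [ae_restrict_mem measurableSet_Ioi] with w hw
    have hm := mm_pos h0 h2 hw
    exact mul_nonneg (bw_pos hw).le (gam_nonneg (by positivity))
  have hmeas : AEStronglyMeasurable (fun w => bw r w * gam (2 * r) (t * mm α w))
      (volume.restrict (Set.Ioi 0)) := by
    have hcg : ContinuousOn (fun w => gam (2 * r) (t * mm α w)) (Set.Ioi 0) := by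
      have hcgam : ContinuousOn (gam (2 * r)) (Set.Ici 0) := by
        intro z hz
        have hz0 : (0 : ℝ) ≤ z := hz
        have h5 : ContinuousOn (fun z => ∫ s in (0 : ℝ)..z, s ^ (2 * r - 1) * Real.exp (-s))
            (Set.uIcc 0 (z + 1)) := by
          refine intervalIntegral.continuousOn_primitive_interval ?_
          rw [Set.uIcc_of_le (by linarith), integrableOn_Icc_iff_integrableOn_Ioc]
          exact (gam_integrand (by positivity : 0 < 2 * r)).mono_set Set.Ioc_subset_Ioi_self
        rw [Set.uIcc_of_le (by linarith)] at h5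
        have h6 := h5 z ⟨hz, by linarith⟩
        refine h6.mono_of_mem_nhdsWithin ?_
        have : Set.Icc 0 (z + 1) = Set.Ici 0 ∩ Set.Iic (z + 1) := rfl
        rw [this]
        exact inter_mem_nhdsWithin _ (Iic_mem_nhds (by linarith))
      refine hcgam.comp ?_ fun w hw => ?_
      · refine continuousOn_const.mul ?_
        unfold mm
        refine ContinuousOn.div (by fun_prop) (by fun_prop) fun w hw => (den_pos h0 h2 hw).ne'
      · have := mm_pos h0 h2 hw
        change 0 ≤ t * mm α w
        positivity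
    exact (measurable_bw r).aestronglyMeasurable.mul
      (hcg.aestronglyMeasurable measurableSet_Ioi)
  rw [measureReal_def, h1, ENNReal.toReal_mul,
    ENNReal.toReal_ofReal (by have := Real.Gamma_pos_of_pos hr; positivity),
    integral_eq_lintegral_of_nonneg_ae hnn hmeas]

/-- the derivative of the integrand -/
noncomputable def dd (r t α w : ℝ) : ℝ :=
  bw r w * ((t * mm α w) ^ (2 * r - 1) * Real.exp (-(t * mm α w)) *
    (t * ((1 + w) * (w - 1) / (α + (2 - α) * w) ^ 2)))

theorem mm_hasDerivAt {α w : ℝ} (h0 : 0 < α) (h2 : α < 2) (hw : 0 < w) :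
    HasDerivAt (fun α => mm α w) ((1 + w) * (w - 1) / (α + (2 - α) * w) ^ 2) α := by
  unfold mm
  have h1 : HasDerivAt (fun α : ℝ => α + (2 - α) * w) (1 + (-1) * w) α :=
    (hasDerivAt_id α).add (((hasDerivAt_id α).const_sub 2).mul_const w)
  have h3 := (hasDerivAt_const α (1 + w)).div h1 (den_pos h0 h2 hw).ne'
  refine h3.congr_deriv ?_
  congr 1
  ring

theorem FF_hasDerivAt {r : ℝ} (hr : 0 < r) {t α : ℝ} (ht : 0 < t) (h0 : 0 < α) (h2 : α < 2) :
    IntegrableOn (dd r t α) (Set.Ioi 0) ∧
    HasDerivAt (FF r t) (1 / Real.Gamma r ^ 2 * ∫ w in Set.Ioi 0, dd r t α w) α := by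
  set ε := min α (2 - α) / 2 with hε
  have hε0 : 0 < ε := by
    have : 0 < min α (2 - α) := lt_min h0 (by linarith)
    positivity
  have hball : ∀ x ∈ Metric.ball α ε, ε < x ∧ x < 2 - ε := by
    intro x hx
    rw [Metric.mem_ball, Real.dist_eq, abs_lt] at hx
    have h1 : min α (2 - α) ≤ α := min_le_left _ _
    have h3 : min α (2 - α) ≤ 2 - α := min_le_right _ _
    constructor <;> linarith [hx.1, hx.2]
  have hr2 : 0 < 2 * r := by positivity
  have hQ : ∀ x ∈ Metric.ball α ε, ∀ w : ℝ, 0 < w → ε * (1 + w) ≤ x + (2 - x) * w ∧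
      x + (2 - x) * w ≤ 2 * (1 + w) := by
    intro x hx w hw
    obtain ⟨h1, h3⟩ := hball x hx
    constructor <;> nlinarith
  have hmm : ∀ x ∈ Metric.ball α ε, ∀ w : ℝ, 0 < w → 1 / 2 ≤ mm x w ∧ mm x w ≤ 1 / ε := by
    intro x hx w hw
    obtain ⟨h1, h3⟩ := hQ x hx w hw
    have hQ0 : 0 < x + (2 - x) * w := lt_of_lt_of_le (by positivity) h1
    unfold mm
    constructor
    · rw [le_div_iff₀ hQ0]; linarith
    · rw [div_le_div_iff₀ hQ0 hε0]; linarith
  set C : ℝ := (t * (1 / 2)) ^ (2 * r - 1) + (t * (1 / ε)) ^ (2 * r - 1) with hC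
  have hC0 : 0 ≤ C := by positivity
  have hpow : ∀ z : ℝ, t * (1 / 2) ≤ z → z ≤ t * (1 / ε) → z ^ (2 * r - 1) ≤ C := by
    intro z hz1 hz2
    have hz0 : 0 < z := lt_of_lt_of_le (by positivity) hz1
    have e1 : 0 ≤ (t * (1 / 2)) ^ (2 * r - 1) := by positivity
    have e2 : 0 ≤ (t * (1 / ε)) ^ (2 * r - 1) := by positivity
    rcases le_total 0 (2 * r - 1) with h | h
    · have := Real.rpow_le_rpow hz0.le hz2 h
      linarith
    · have := Real.rpow_le_rpow_of_nonpos (by positivity) hz1 h
      linarith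
  have hmeas : ∀ x ∈ Metric.ball α ε, ContinuousOn (fun w => gam (2 * r) (t * mm x w))
      (Set.Ioi 0) := by
    intro x hx w hw
    obtain ⟨h1, h3⟩ := hball x hx
    have hw' : 0 < w := hw
    have hm := mm_pos (hε0.trans h1) (by linarith) hw'
    have hg := (gam_hasDerivAt hr2 (z := t * mm x w) (by positivity)).continuousAt
    refine (ContinuousAt.comp (f := fun w => t * mm x w) hg ?_).continuousWithinAt
    unfold mm
    refine continuousAt_const.mul (ContinuousAt.div (by fun_prop) (by fun_prop)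
      (den_pos (hε0.trans h1) (by linarith) hw').ne')
  have key := hasDerivAt_integral_of_dominated_loc_of_deriv_le (μ := volume.restrict (Set.Ioi 0))
    (F := fun x w => bw r w * gam (2 * r) (t * mm x w)) (F' := fun x w => dd r t x w)
    (bound := fun w => bw r w * (C * (t * (1 / ε ^ 2)))) (x₀ := α)
    (Metric.ball_mem_nhds α hε0) ?_ ?_ ?_ ?_ ?_ ?_
  · refine ⟨key.1, ?_⟩
    exact key.2.const_mul _
  · filter_upwards [Metric.ball_mem_nhds α hε0] with x hx
    exact (measurable_bw r).aestronglyMeasurable.mul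
      ((hmeas x hx).aestronglyMeasurable measurableSet_Ioi)
  · have hα : α ∈ Metric.ball α ε := Metric.mem_ball_self hε0
    refine Integrable.mono' ((bw_integrableOn hr).mul_const (Real.Gamma (2 * r))) ?_ ?_
    · exact (measurable_bw r).aestronglyMeasurable.mul
        ((hmeas α hα).aestronglyMeasurable measurableSet_Ioi)
    · filter_upwards [ae_restrict_mem measurableSet_Ioi] with w hw
      have hw' : 0 < w := hw
      have hm := mm_pos h0 h2 hw'
      rw [Real.norm_of_nonneg (mul_nonneg (bw_pos hw').le (gam_nonneg (by positivity)))]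
      exact mul_le_mul_of_nonneg_left (gam_le_Gamma hr2 (by positivity)) (bw_pos hw').le
  · refine ContinuousOn.aestronglyMeasurable ?_ measurableSet_Ioi
    intro w hw
    have hw' : 0 < w := hw
    have hm := mm_pos h0 h2 hw'
    have hQ0 := den_pos h0 h2 hw'
    refine ContinuousAt.continuousWithinAt ?_
    unfold dd bw
    have hcm : ContinuousAt (fun w => t * mm α w) w := by
      unfold mm
      exact continuousAt_const.mul (ContinuousAt.div (by fun_prop) (by fun_prop) hQ0.ne')
    refine ContinuousAt.mul (ContinuousAt.mul ?_ ?_) (ContinuousAt.mul (ContinuousAt.mul ?_ ?_) ?_)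
    · exact Real.continuousAt_rpow_const _ _ (Or.inl hw'.ne')
    · exact ContinuousAt.rpow_const (by fun_prop) (Or.inl (by positivity))
    · exact hcm.rpow_const (Or.inl (by positivity))
    · exact (hcm.neg).rexp
    · exact continuousAt_const.mul (ContinuousAt.div (by fun_prop) (by fun_prop) (by positivity))
  · filter_upwards [ae_restrict_mem measurableSet_Ioi] with w hw x hx
    have hw' : 0 < w := hw
    obtain ⟨h1, h3⟩ := hball x hx
    have hm := mm_pos (hε0.trans h1) (by linarith) hw'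
    obtain ⟨h4, h5⟩ := hmm x hx w hw'
    obtain ⟨h6, _⟩ := hQ x hx w hw'
    have hQ0 := den_pos (hε0.trans h1) (by linarith) hw'
    have hz1 : t * (1 / 2) ≤ t * mm x w := mul_le_mul_of_nonneg_left h4 ht.le
    have hz2 : t * mm x w ≤ t * (1 / ε) := mul_le_mul_of_nonneg_left h5 ht.le
    unfold dd
    rw [norm_mul, norm_mul, norm_mul, norm_mul, Real.norm_of_nonneg (bw_pos hw').le,
      Real.norm_of_nonneg (Real.rpow_nonneg (by positivity) _), Real.norm_of_nonneg (Real.exp_pos _).le,
      Real.norm_of_nonneg ht.le]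
    refine mul_le_mul_of_nonneg_left ?_ (bw_pos hw').le
    refine mul_le_mul ?_ (mul_le_mul_of_nonneg_left ?_ ht.le) (by positivity) hC0
    · have h7 : Real.exp (-(t * mm x w)) ≤ 1 := Real.exp_le_one_iff.2 (by
        have : 0 ≤ t * mm x w := by positivity
        linarith)
      calc (t * mm x w) ^ (2 * r - 1) * Real.exp (-(t * mm x w)) ≤
          (t * mm x w) ^ (2 * r - 1) * 1 :=
            mul_le_mul_of_nonneg_left h7 (Real.rpow_nonneg (by positivity) _)
        _ ≤ C := by rw [mul_one]; exact hpow _ hz1 hz2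
    · rw [Real.norm_eq_abs, abs_div, abs_of_pos (by positivity : 0 < (x + (2 - x) * w) ^ 2),
        div_le_div_iff₀ (by positivity) (by positivity), one_mul]
      have h8 : |(1 + w) * (w - 1)| ≤ (1 + w) ^ 2 := by
        rw [abs_mul, abs_of_pos (by linarith : 0 < 1 + w), sq]
        refine mul_le_mul_of_nonneg_left ?_ (by linarith)
        rw [abs_le]; constructor <;> linarith
      have h9 : (ε * (1 + w)) ^ 2 ≤ (x + (2 - x) * w) ^ 2 :=
        pow_le_pow_left₀ (by positivity) h6 2
      calc |(1 + w) * (w - 1)| * ε ^ 2 ≤ (1 + w) ^ 2 * ε ^ 2 :=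
            mul_le_mul_of_nonneg_right h8 (by positivity)
        _ = (ε * (1 + w)) ^ 2 := by ring
        _ ≤ (x + (2 - x) * w) ^ 2 := h9
  · exact (bw_integrableOn hr).mul_const _
  · filter_upwards [ae_restrict_mem measurableSet_Ioi] with w hw x hx
    have hw' : 0 < w := hw
    obtain ⟨h1, h3⟩ := hball x hx
    have hm := mm_pos (hε0.trans h1) (by linarith) hw'
    have hd1 := (mm_hasDerivAt (hε0.trans h1) (by linarith) hw').const_mul t
    have hd2 := gam_hasDerivAt hr2 (z := t * mm x w) (by positivity)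
    exact (hd2.comp x hd1).const_mul (bw r w)

end Q289.MK
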