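import Pool.Agent.Q289.MK.Sign

/-!
# Linear combinations of two gamma variables: the median
-/

set_option autoImplicit false

open MeasureTheory ProbabilityTheory Filter Topology

namespace Q289.MK

/-- the inversion inequality -/
theorem inv_ineq {a y : ℝ} (ha : 0 < a) (hy : 0 < y) (hy1 : y ≤ 1) :
    y ^ (-2 : ℝ) * ((y ^ (-1 : ℝ)) ^ (a - 1) * Real.exp (-(a * y ^ (-1 : ℝ)))) ≤
      y ^ (a - 1) * Real.exp (-(a * y)) := by
  set L := -Real.log y with hL
  have hL0 : 0 ≤ L := by
    have := Real.log_nonpos hy.le hy1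
    linarith
  have hyL : y = Real.exp (-L) := by
    rw [hL, neg_neg, Real.exp_log hy]
  have h1 : y ^ (-1 : ℝ) = Real.exp L := by
    rw [hyL, ← Real.exp_mul]; congr 1; ring
  have h2 : y ^ (-2 : ℝ) = Real.exp (2 * L) := by
    rw [hyL, ← Real.exp_mul]; congr 1; ring
  have h3 : y ^ (a - 1) = Real.exp (-(a - 1) * L) := by
    rw [hyL, ← Real.exp_mul]; congr 1; ring
  have h4 : (Real.exp L) ^ (a - 1) = Real.exp ((a - 1) * L) := by
    rw [← Real.exp_mul]; congr 1; ring
  rw [h1, h2, h3, h4, ← Real.exp_add, ← Real.exp_add, ← Real.exp_add]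
  apply Real.exp_le_exp.2
  have h5 : L ≤ Real.sinh L := Real.self_le_sinh_iff.2 hL0
  rw [Real.sinh_eq] at h5
  have h6 : y = Real.exp (-L) := hyL
  rw [h6]
  nlinarith

theorem scaled_integrable {a : ℝ} (ha : 0 < a) :
    IntegrableOn (fun z : ℝ => z ^ (a - 1) * Real.exp (-(a * z))) (Set.Ioi 0) := by
  have h1 := (integrableOn_Ioi_comp_mul_left_iff
    (fun s : ℝ => s ^ (a - 1) * Real.exp (-s)) 0 ha).2 (by rw [mul_zero]; exact gam_integrand ha)
  have h2 : IntegrableOn (fun z : ℝ => a ^ (a - 1) * (z ^ (a - 1) * Real.exp (-(a * z))))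
      (Set.Ioi 0) := by
    refine h1.congr_fun (fun z hz => ?_) measurableSet_Ioi
    have hz' : 0 < z := hz
    simp only []
    rw [Real.mul_rpow ha.le hz'.le]
    ring
  have h3 : (0 : ℝ) < a ^ (a - 1) := by positivity
  have h4 := h2.const_mul (a ^ (a - 1))⁻¹
  refine IntegrableOn.congr_fun h4 (fun z _ => ?_) measurableSet_Ioi
  field_simp

/-- the median of a gamma law is at most its mean -/
theorem gam_half {a : ℝ} (ha : 0 < a) : Real.Gamma a / 2 ≤ gam a a := by
  set g : ℝ → ℝ := fun z => z ^ (a - 1) * Real.exp (-(a * z)) with hg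
  have hgi : IntegrableOn g (Set.Ioi 0) := scaled_integrable ha
  -- inversion
  have hinv : ∫ z in Set.Ioi 1, g z ≤ ∫ z in Set.Ioc 0 1, g z := by
    have h1 := integral_comp_rpow_Ioi (Set.indicator (Set.Ioi 1) g) (p := (-1 : ℝ)) (by norm_num)
    have h2 : ∫ y in Set.Ioi 0, Set.indicator (Set.Ioi 1) g y = ∫ z in Set.Ioi 1, g z := by
      rw [setIntegral_indicator measurableSet_Ioi, Set.inter_eq_right.2 (Set.Ioi_subset_Ioi zero_le_one)]
    rw [← h2, ← h1]
    have hgnn : ∀ z : ℝ, 0 < z → 0 ≤ g z := fun z hz => by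
      simp only [hg]; positivity
    have hii : IntegrableOn (Set.indicator (Set.Ioi 1) g) (Set.Ioi 0) :=
      hgi.indicator measurableSet_Ioi
    have hic := (integrableOn_Ioi_comp_rpow_iff' (Set.indicator (Set.Ioi 1) g)
      (p := (-1 : ℝ)) (by norm_num)).2 hii
    have h3 : ∫ z in Set.Ioc 0 1, g z = ∫ z in Set.Ioi 0, Set.indicator (Set.Ioc 0 1) g z := by
      rw [setIntegral_indicator measurableSet_Ioc, Set.inter_eq_right.2 Set.Ioc_subset_Ioi_self]
    rw [h3]
    refine setIntegral_mono_on ?_ (hgi.indicator measurableSet_Ioc) measurableSet_Ioi ?_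
    · refine IntegrableOn.congr_fun hic (fun z _ => ?_) measurableSet_Ioi
      simp
    · intro y hy
      have hy' : 0 < y := hy
      have e1 : |(-1 : ℝ)| * y ^ ((-1 : ℝ) - 1) = y ^ (-2 : ℝ) := by
        rw [abs_neg, abs_one, one_mul]; norm_num
      rw [e1, smul_eq_mul]
      have e2 : y ^ (-1 : ℝ) = y⁻¹ := Real.rpow_neg_one y
      rcases lt_or_ge y 1 with h | h
      · have h4 : y ^ (-1 : ℝ) ∈ Set.Ioi (1 : ℝ) := by
          rw [e2]; exact (one_lt_inv₀ hy').2 h
        rw [Set.indicator_of_mem h4, Set.indicator_of_mem (show y ∈ Set.Ioc 0 1 from ⟨hy', h.le⟩)]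
        exact inv_ineq ha hy' h.le
      · have h4 : y ^ (-1 : ℝ) ∉ Set.Ioi (1 : ℝ) := by
          rw [e2]
          exact not_lt.2 (inv_le_one_of_one_le₀ h)
        rw [Set.indicator_of_notMem h4, mul_zero]
        exact Set.indicator_nonneg (fun z hz => hgnn z hz.1) y
  -- back to the gamma integral
  have hsum : ∫ z in Set.Ioi 0, g z = (∫ z in Set.Ioc 0 1, g z) + ∫ z in Set.Ioi 1, g z := by
    rw [← Set.Ioc_union_Ioi_eq_Ioi (zero_le_one (α := ℝ)),
      setIntegral_union (Set.Ioc_disjoint_Ioi le_rfl) measurableSet_Ioi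
        (hgi.mono_set Set.Ioc_subset_Ioi_self) (hgi.mono_set (Set.Ioi_subset_Ioi zero_le_one))]
  have hscale1 : Real.Gamma a = a ^ a * ∫ z in Set.Ioi 0, g z := by
    rw [Real.Gamma_eq_integral ha]
    have h1 := integral_comp_mul_left_Ioi' (fun s : ℝ => Real.exp (-s) * s ^ (a - 1)) 0 ha
    rw [mul_zero] at h1
    rw [← h1, smul_eq_mul, ← integral_const_mul, ← integral_const_mul]
    refine setIntegral_congr_fun measurableSet_Ioi fun z hz => ?_
    have hz' : 0 < z := hz
    simp only [hg]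
    rw [Real.mul_rpow ha.le hz'.le]
    have : a ^ a = a ^ (a - 1) * a := by rw [← Real.rpow_add_one ha.ne']; congr 1; ring
    rw [this]
    ring
  have hscale2 : gam a a = a ^ a * ∫ z in Set.Ioc 0 1, g z := by
    unfold gam
    have h1 := intervalIntegral.integral_comp_mul_left
      (fun s : ℝ => s ^ (a - 1) * Real.exp (-s)) ha.ne' (a := 0) (b := 1)
    rw [mul_zero, mul_one, smul_eq_mul] at h1
    have h2 : ∫ s in (0 : ℝ)..a, s ^ (a - 1) * Real.exp (-s) =
        a * ∫ x in (0 : ℝ)..1, (a * x) ^ (a - 1) * Real.exp (-(a * x)) := by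
      rw [h1]; field_simp
    rw [h2, intervalIntegral.integral_of_le zero_le_one, ← integral_const_mul,
      ← integral_const_mul]
    refine setIntegral_congr_fun measurableSet_Ioc fun z hz => ?_
    have hz' : 0 < z := hz.1
    simp only [hg]
    rw [Real.mul_rpow ha.le hz'.le]
    have : a ^ a = a ^ (a - 1) * a := by rw [← Real.rpow_add_one ha.ne']; congr 1; ring
    rw [this]
    ring
  rw [hscale1, hscale2, hsum]
  have h5 : (0 : ℝ) < a ^ a := by positivity
  have h6 := mul_le_mul_of_nonneg_left hinv h5.le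
  rw [mul_add]
  linarith

/-- the value at coefficient one -/
theorem FF_one {r : ℝ} (hr : 0 < r) : 1 / 2 ≤ FF r (2 * r) 1 := by
  have hr2 : 0 < 2 * r := by positivity
  have hG := Real.Gamma_pos_of_pos hr
  have hG2 := Real.Gamma_pos_of_pos hr2
  unfold FF
  have h1 : ∫ w in Set.Ioi 0, bw r w * gam (2 * r) (2 * r * mm 1 w) =
      (∫ w in Set.Ioi 0, bw r w) * gam (2 * r) (2 * r) := by
    rw [← integral_mul_const]
    refine setIntegral_congr_fun measurableSet_Ioi fun w hw => ?_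
    have hw' : 0 < w := hw
    have : mm 1 w = 1 := by
      unfold mm
      have : 1 + (2 - 1) * w = 1 + w := by ring
      rw [this, div_self (by linarith)]
    rw [this, mul_one]
  rw [h1]
  have h2 : 1 / Real.Gamma r ^ 2 * ((∫ w in Set.Ioi 0, bw r w) * Real.Gamma (2 * r)) = 1 := by
    have h3 := total_mass hr
    have h4 : ∫⁻ w in Set.Ioi 0, ENNReal.ofReal (bw r w) =
        ENNReal.ofReal (∫ w in Set.Ioi 0, bw r w) := by
      rw [ofReal_integral_eq_lintegral_ofReal (bw_integrableOn hr)]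
      filter_upwards [ae_restrict_mem measurableSet_Ioi] with w hw
      exact (bw_pos hw).le
    have h5 : 0 ≤ ∫ w in Set.Ioi 0, bw r w :=
      setIntegral_nonneg measurableSet_Ioi fun w hw => (bw_pos hw).le
    rw [h4, ← ENNReal.ofReal_mul h5, ← ENNReal.ofReal_mul (by positivity)] at h3
    rw [← ENNReal.toReal_ofReal (show 0 ≤ 1 / Real.Gamma r ^ 2 *
      ((∫ w in Set.Ioi 0, bw r w) * Real.Gamma (2 * r)) by positivity), h3, ENNReal.toReal_one]
  have h6 := gam_half hr2
  have h7 : 0 ≤ ∫ w in Set.Ioi 0, bw r w :=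
    setIntegral_nonneg measurableSet_Ioi fun w hw => (bw_pos hw).le
  calc (1 : ℝ) / 2 = 1 / Real.Gamma r ^ 2 * ((∫ w in Set.Ioi 0, bw r w) *
        (Real.Gamma (2 * r) / 2)) := by
        have h8 : 1 / Real.Gamma r ^ 2 * ((∫ w in Set.Ioi 0, bw r w) * (Real.Gamma (2 * r) / 2)) =
            (1 / Real.Gamma r ^ 2 * ((∫ w in Set.Ioi 0, bw r w) * Real.Gamma (2 * r))) / 2 := by
          ring
        rw [h8, h2]
    _ ≤ 1 / Real.Gamma r ^ 2 * ((∫ w in Set.Ioi 0, bw r w) * gam (2 * r) (2 * r)) := by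
        apply mul_le_mul_of_nonneg_left _ (by positivity)
        exact mul_le_mul_of_nonneg_left h6 h7

/-- the median of a law on the real line -/
noncomputable def Med (ν : Measure ℝ) : ℝ := sInf {x | 1 / 2 ≤ ν.real (Set.Iic x)}

section median

variable {ν : Measure ℝ} [IsProbabilityMeasure ν]

theorem med_bdd (ν : Measure ℝ) [IsProbabilityMeasure ν] :
    BddBelow {x | 1 / 2 ≤ ν.real (Set.Iic x)} := by
  have h := tendsto_cdf_atBot ν
  obtain ⟨N, hN⟩ := eventually_atBot.1 (h.eventually (gt_mem_nhds (show (0 : ℝ) < 1 / 2 by norm_num)))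
  refine ⟨N, fun x hx => ?_⟩
  by_contra hcon
  push Not at hcon
  have h1 := hN x hcon.le
  rw [cdf_eq_real] at h1
  have h2 : 1 / 2 ≤ ν.real (Set.Iic x) := hx
  linarith

theorem med_le {x : ℝ} (h : 1 / 2 ≤ ν.real (Set.Iic x)) : Med ν ≤ x := csInf_le (med_bdd ν) h

theorem med_mem : 1 / 2 ≤ ν.real (Set.Iic (Med ν)) := by
  have hne : {x | 1 / 2 ≤ ν.real (Set.Iic x)}.Nonempty := by
    obtain ⟨x, hx⟩ := ((tendsto_cdf_atTop ν).eventually
      (lt_mem_nhds (show (1 / 2 : ℝ) < 1 by norm_num))).exists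
    rw [cdf_eq_real] at hx
    exact ⟨x, hx.le⟩
  have hrc := (cdf ν).right_continuous (Med ν)
  by_contra hcon
  push Not at hcon
  rw [← cdf_eq_real] at hcon
  have h1 := hrc.tendsto.eventually (gt_mem_nhds hcon)
  have h2 : ∀ᶠ x in 𝓝[>] (Med ν), cdf ν x < 1 / 2 :=
    h1.filter_mono (nhdsWithin_mono _ Set.Ioi_subset_Ici_self)
  obtain ⟨y, hy, hy'⟩ := (mem_nhdsGT_iff_exists_Ioo_subset).1 h2
  obtain ⟨z, hz1, hz2⟩ := (csInf_lt_iff (med_bdd ν) hne).1 (show Med ν < y from hy)
  have hz3 : Med ν ≤ z := csInf_le (med_bdd ν) hz1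
  rcases hz3.eq_or_lt with h | h
  · rw [← h] at hz1
    have h3 : 1 / 2 ≤ ν.real (Set.Iic (Med ν)) := hz1
    rw [← cdf_eq_real] at h3
    linarith
  · have h3 : cdf ν z < 1 / 2 := hy' ⟨h, hz2⟩
    have h4 : 1 / 2 ≤ ν.real (Set.Iic z) := hz1
    rw [← cdf_eq_real] at h4
    linarith

/-- if there is more than half of the mass strictly below `x` then the median is smaller -/
theorem med_lt {x : ℝ} (h : 1 / 2 < ν.real (Set.Iio x)) : Med ν < x := by
  have h1 : Tendsto (fun n : ℕ => ν.real (Set.Iic (x - 1 / ((n : ℝ) + 1)))) atTop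
      (𝓝 (ν.real (Set.Iio x))) := by
    have hU : (⋃ n : ℕ, Set.Iic (x - 1 / ((n : ℝ) + 1))) = Set.Iio x := by
      ext y
      simp only [Set.mem_iUnion, Set.mem_Iic, Set.mem_Iio]
      constructor
      · rintro ⟨n, hn⟩
        have : 0 < 1 / ((n : ℝ) + 1) := by positivity
        linarith
      · intro hy
        obtain ⟨n, hn⟩ := exists_nat_one_div_lt (sub_pos.2 hy)
        exact ⟨n, by linarith⟩
    have hmono : Monotone fun n : ℕ => Set.Iic (x - 1 / ((n : ℝ) + 1)) := by
      intro m n hmn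
      refine Set.Iic_subset_Iic.2 ?_
      have : 1 / ((n : ℝ) + 1) ≤ 1 / ((m : ℝ) + 1) := by
        apply one_div_le_one_div_of_le (by positivity)
        have : (m : ℝ) ≤ n := by exact_mod_cast hmn
        linarith
      linarith
    have h2 := tendsto_measure_iUnion_atTop (μ := ν) hmono
    rw [hU] at h2
    exact (ENNReal.tendsto_toReal (measure_ne_top _ _)).comp h2
  obtain ⟨n, hn⟩ := (h1.eventually (lt_mem_nhds h)).exists
  have h3 := med_le (ν := ν) hn.le
  have : 0 < 1 / ((n : ℝ) + 1) := by positivity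
  linarith

end median

end Q289.MK
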