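import Mathlib

/-!
# Linear combinations of two gamma variables: a representation of the distribution function
-/

set_option autoImplicit false

open MeasureTheory ProbabilityTheory Filter Topology

namespace Q289.MK

/-- scaling in a half-line -/
theorem lintegral_scale (g : ℝ → ENNReal) {a : ℝ} (ha : 0 < a) :
    ∫⁻ y in Set.Ioi 0, g y = ENNReal.ofReal a * ∫⁻ w in Set.Ioi 0, g (a * w) := by
  have h1 : (volume : Measure ℝ) = ENNReal.ofReal a • Measure.map (a * ·) volume := by
    have := Real.smul_map_volume_mul_left ha.ne'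
    rw [abs_of_pos ha] at this
    exact this.symm
  have hemb : MeasurableEmbedding (a * · : ℝ → ℝ) :=
    (Homeomorph.mulLeft₀ a ha.ne').measurableEmbedding
  conv_lhs => rw [h1]
  rw [Measure.restrict_smul, lintegral_smul_measure, hemb.restrict_map, hemb.lintegral_map,
    smul_eq_mul]
  congr 2
  have h2 : (a * · : ℝ → ℝ) ⁻¹' Set.Ioi 0 = Set.Ioi 0 := by
    ext x
    simp only [Set.mem_preimage, Set.mem_Ioi]
    exact ⟨fun h => (pos_iff_pos_of_mul_pos h).1 ha, fun h => mul_pos ha h⟩
  rw [h2]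

/-- the unnormalized density of the ratio -/
noncomputable def bw (r w : ℝ) : ℝ := w ^ (r - 1) * (1 + w) ^ (-(2 * r))

theorem bw_pos {r w : ℝ} (hw : 0 < w) : 0 < bw r w := by
  unfold bw; positivity

/-- the joint law in the coordinates (ratio, sum) -/
theorem prod_lintegral {r : ℝ} (hr : 0 < r) {h : ℝ × ℝ → ENNReal} (hh : Measurable h) :
    ∫⁻ p, h p ∂((gammaMeasure r 1).prod (gammaMeasure r 1)) =
      ENNReal.ofReal (1 / Real.Gamma r ^ 2) * ∫⁻ w in Set.Ioi 0, ENNReal.ofReal (bw r w) *
        ∫⁻ s in Set.Ioi 0, ENNReal.ofReal (s ^ (2 * r - 1) * Real.exp (-s)) *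
          h (s / (1 + w), s * w / (1 + w)) := by
  have hG := Real.Gamma_pos_of_pos hr
  have hpm : Measurable (gammaPDF r 1) := (measurable_gammaPDFReal r 1).ennreal_ofReal
  have hrestr : ∀ g : ℝ → ENNReal, Measurable g →
      ∫⁻ x, g x ∂(gammaMeasure r 1) = ∫⁻ x in Set.Ioi 0,
        ENNReal.ofReal (1 / Real.Gamma r * x ^ (r - 1) * Real.exp (-x)) * g x := by
    intro g hg
    unfold gammaMeasure
    rw [lintegral_withDensity_eq_lintegral_mul _ hpm hg,
      ← lintegral_add_compl _ (measurableSet_Ioi (a := (0 : ℝ)))]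
    have h1 : ∫⁻ x in (Set.Ioi (0 : ℝ))ᶜ, (gammaPDF r 1 * g) x = 0 := by
      rw [Set.compl_Ioi, ← setLIntegral_congr Iio_ae_eq_Iic]
      rw [setLIntegral_congr_fun (g := fun _ => 0) measurableSet_Iio]
      · simp
      · intro x hx
        simp only [Pi.mul_apply]
        rw [gammaPDF_of_neg hx, zero_mul]
    rw [h1, add_zero]
    refine setLIntegral_congr_fun measurableSet_Ioi fun x hx => ?_
    simp only [Pi.mul_apply]
    rw [gammaPDF_of_nonneg (le_of_lt hx), Real.one_rpow, one_mul]
  have : SigmaFinite (gammaMeasure r 1) := by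
    have := isProbabilityMeasure_gammaMeasure hr one_pos
    infer_instance
  rw [lintegral_prod _ hh.aemeasurable]
  have hm1 : Measurable fun x : ℝ => ∫⁻ y, h (x, y) ∂(gammaMeasure r 1) := hh.lintegral_prod_right'
  rw [hrestr _ hm1]
  -- the inner substitution
  have hin : ∀ x ∈ Set.Ioi (0 : ℝ),
      ENNReal.ofReal (1 / Real.Gamma r * x ^ (r - 1) * Real.exp (-x)) *
        ∫⁻ y, h (x, y) ∂(gammaMeasure r 1) =
      ∫⁻ w in Set.Ioi 0, ENNReal.ofReal (1 / Real.Gamma r ^ 2 * w ^ (r - 1) *
        (x ^ (2 * r - 1) * Real.exp (-(x * (1 + w))))) * h (x, x * w) := by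
    intro x hx
    have hx' : 0 < x := hx
    have hm2 : Measurable fun y : ℝ => h (x, y) := hh.comp measurable_prodMk_left
    rw [hrestr _ hm2, lintegral_scale _ hx',
      ← lintegral_const_mul' _ _ ENNReal.ofReal_ne_top,
      ← lintegral_const_mul' _ _ ENNReal.ofReal_ne_top]
    refine setLIntegral_congr_fun measurableSet_Ioi fun w hw => ?_
    have hw' : 0 < w := hw
    rw [← mul_assoc, ← mul_assoc, ← ENNReal.ofReal_mul (by positivity),
      ← ENNReal.ofReal_mul (by positivity)]
    congr 2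
    rw [Real.mul_rpow hx'.le hw'.le]
    have e1 : x ^ (2 * r - 1) = x ^ (r - 1) * x ^ (r - 1) * x := by
      rw [← Real.rpow_add hx', ← Real.rpow_add_one hx'.ne']
      congr 1; ring
    have e2 : Real.exp (-(x * (1 + w))) = Real.exp (-x) * Real.exp (-(x * w)) := by
      rw [← Real.exp_add]; congr 1; ring
    rw [e1, e2]
    ring
  rw [setLIntegral_congr_fun measurableSet_Ioi hin]
  -- swap
  rw [lintegral_lintegral_swap]
  swap
  · refine AEMeasurable.mul ?_ ?_
    · refine Measurable.aemeasurable ?_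
      refine Measurable.ennreal_ofReal ?_
      fun_prop
    · refine Measurable.aemeasurable ?_
      exact hh.comp (by fun_prop)
  rw [← lintegral_const_mul' _ _ ENNReal.ofReal_ne_top]
  refine setLIntegral_congr_fun measurableSet_Ioi fun w hw => ?_
  have hw' : 0 < w := hw
  rw [lintegral_scale _ (show 0 < (1 + w)⁻¹ by positivity),
    ← lintegral_const_mul' _ _ ENNReal.ofReal_ne_top, ← lintegral_const_mul' _ _ ENNReal.ofReal_ne_top,
    ← lintegral_const_mul' _ _ ENNReal.ofReal_ne_top]
  refine setLIntegral_congr_fun measurableSet_Ioi fun s hs => ?_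
  have hs' : 0 < s := hs
  have h1w : 0 < 1 + w := by positivity
  have e0 : (1 + w)⁻¹ * s = s / (1 + w) := by ring
  have e0' : s / (1 + w) * w = s * w / (1 + w) := by ring
  rw [e0, e0']
  have hbw : 0 < bw r w := bw_pos hw'
  have hk : 0 ≤ 1 / Real.Gamma r ^ 2 * bw r w := mul_nonneg (by positivity) hbw.le
  rw [← mul_assoc, ← ENNReal.ofReal_mul (by positivity), ← mul_assoc (ENNReal.ofReal (bw r w)),
    ← ENNReal.ofReal_mul hbw.le, ← mul_assoc (ENNReal.ofReal (1 / Real.Gamma r ^ 2)),
    ← ENNReal.ofReal_mul (by positivity)]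
  congr 2
  unfold bw
  have e1 : s / (1 + w) * (1 + w) = s := by field_simp
  rw [e1, Real.div_rpow hs'.le h1w.le]
  have e2 : (1 + w) ^ (-(2 * r)) = (1 + w)⁻¹ * ((1 + w) ^ (2 * r - 1))⁻¹ := by
    rw [← Real.rpow_neg_one, ← Real.rpow_neg h1w.le, ← Real.rpow_add h1w]
    congr 1; ring
  rw [e2]
  ring

end Q289.MK
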