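import Pool.Agent.Q289.MK.Deriv

/-!
# Linear combinations of two gamma variables: the sign of the derivative
-/

set_option autoImplicit false

open MeasureTheory ProbabilityTheory Filter Topology

namespace Q289.MK

theorem dd_eq {r t α w : ℝ} (ht : 0 < t) (h0 : 0 < α) (h2 : α < 2) (hw : 0 < w) :
    dd r t α w = t ^ (2 * r) * w ^ (r - 1) * (α + (2 - α) * w) ^ (-(2 * r) - 1) * (w - 1) *
      Real.exp (-(t * mm α w)) := by
  have hQ := den_pos h0 h2 hw
  have hL : 0 < 1 + w := by linarith
  unfold dd bw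
  have e1 : (t * mm α w) ^ (2 * r - 1) = t ^ (2 * r - 1) * ((1 + w) ^ (2 * r - 1) *
      (α + (2 - α) * w) ^ (-(2 * r - 1))) := by
    unfold mm
    rw [Real.mul_rpow ht.le (by positivity), Real.div_rpow hL.le hQ.le, Real.rpow_neg hQ.le,
      div_eq_mul_inv]
  rw [e1]
  set Q := α + (2 - α) * w with hQdef
  set L := 1 + w with hLdef
  have e2 : L ^ (-(2 * r)) * L ^ (2 * r - 1) * L = 1 := by
    rw [← Real.rpow_add hL, ← Real.rpow_add_one hL.ne']
    have : -(2 * r) + (2 * r - 1) + 1 = 0 := by ring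
    rw [this, Real.rpow_zero]
  have e3 : Q ^ (-(2 * r) - 1) = Q ^ (-(2 * r - 1)) * (Q ^ 2)⁻¹ := by
    rw [← Real.rpow_natCast Q 2, ← Real.rpow_neg hQ.le, ← Real.rpow_add hQ]
    congr 1
    push_cast
    ring
  have e4 : t ^ (2 * r) = t ^ (2 * r - 1) * t := by
    rw [← Real.rpow_add_one ht.ne']
    congr 1; ring
  rw [e3, e4, div_eq_mul_inv]
  linear_combination (t ^ (2 * r - 1) * w ^ (r - 1) * Q ^ (-(2 * r - 1)) *
    Real.exp (-(t * mm α w)) * t * (w - 1) * (Q ^ 2)⁻¹) * e2

/-- the angular variable -/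
noncomputable def uu (z : ℝ) : ℝ := (1 - z) / (1 + z)

theorem uu_abs {z : ℝ} (hz : 0 < z) : |uu z| ≤ 1 := by
  unfold uu
  rw [abs_div, abs_of_pos (by linarith : 0 < 1 + z), div_le_one (by linarith), abs_le]
  constructor <;> linarith

theorem dd_scaled {r t β z : ℝ} (ht : 0 < t) (h0 : 0 < β) (h1 : β < 1) (hz : 0 < z) :
    (1 - β) / (1 + β) * dd r t (1 - β) ((1 - β) / (1 + β) * z) =
      -(t ^ (2 * r) * ((1 - β) * (1 + β)) ^ (-r - 1) * Real.exp (-(t / ((1 - β) * (1 + β))))) *
        (bw r z * ((β + uu z) * Real.exp (-(t * β / ((1 - β) * (1 + β)) * uu z)))) := by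
  have hc1 : 0 < 1 - β := by linarith
  have hc2 : 0 < 1 + β := by linarith
  have hw : 0 < (1 - β) / (1 + β) * z := by positivity
  rw [dd_eq ht hc1 (by linarith) hw]
  have hz1 : 0 < 1 + z := by linarith
  have eQ : 1 - β + (2 - (1 - β)) * ((1 - β) / (1 + β) * z) = (1 - β) * (1 + z) := by
    field_simp
    ring
  have eM : mm (1 - β) ((1 - β) / (1 + β) * z) =
      1 / ((1 - β) * (1 + β)) + β / ((1 - β) * (1 + β)) * uu z := by
    unfold mm uu
    rw [eQ]
    field_simp
    ring
  rw [eQ, eM]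
  have eE : Real.exp (-(t * (1 / ((1 - β) * (1 + β)) + β / ((1 - β) * (1 + β)) * uu z))) =
      Real.exp (-(t / ((1 - β) * (1 + β)))) *
        Real.exp (-(t * β / ((1 - β) * (1 + β)) * uu z)) := by
    rw [← Real.exp_add]; congr 1; ring
  rw [eE]
  have eP : ((1 - β) / (1 + β) * z) ^ (r - 1) = (1 - β) ^ (r - 1) * (1 + β) ^ (-(r - 1)) *
      z ^ (r - 1) := by
    rw [Real.mul_rpow (by positivity) hz.le, Real.div_rpow hc1.le hc2.le, Real.rpow_neg hc2.le,
      div_eq_mul_inv]
  have eR : ((1 - β) * (1 + z)) ^ (-(2 * r) - 1) = (1 - β) ^ (-(2 * r) - 1) *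
      ((1 + z) ^ (-(2 * r)) * (1 + z)⁻¹) := by
    rw [Real.mul_rpow hc1.le hz1.le, ← Real.rpow_neg_one (1 + z), ← Real.rpow_add hz1]
    congr 2
  have eS : ((1 - β) * (1 + β)) ^ (-r - 1) = (1 - β) ^ (-r - 1) * (1 + β) ^ (-r - 1) :=
    Real.mul_rpow hc1.le hc2.le
  have eT : (1 - β) * ((1 - β) ^ (r - 1) * (1 - β) ^ (-(2 * r) - 1)) = (1 - β) ^ (-r - 1) := by
    rw [← Real.rpow_add hc1, mul_comm, ← Real.rpow_add_one hc1.ne']
    congr 1; ring
  have eU : (1 + β) ^ (-(r - 1)) = (1 + β) ^ (-r - 1) * ((1 + β) * (1 + β)) := by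
    rw [← mul_assoc, ← Real.rpow_add_one hc2.ne', ← Real.rpow_add_one hc2.ne']
    congr 1; ring
  rw [eP, eR, eS, eU, ← eT]
  unfold bw
  have eV : (1 - β) / (1 + β) * z - 1 = -((β + uu z) * (1 + z)) / (1 + β) := by
    unfold uu
    field_simp
    ring
  rw [eV]
  field_simp

section moments

variable {r R : ℝ}

theorem uu_cont {z : ℝ} (hz : 0 < z) : ContinuousAt uu z := by
  unfold uu
  exact ContinuousAt.div (by fun_prop) (by fun_prop) (by linarith)

theorem measurable_uu : Measurable uu := by unfold uu; fun_prop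

/-- moments are integrable -/
theorem moment_integrable (hr : 0 < r) {p : ℝ → ℝ} (hp : Continuous p) :
    IntegrableOn (fun z => bw r z * (p (uu z) * Real.exp (-(R * uu z)))) (Set.Ioi 0) := by
  obtain ⟨C, hC⟩ := (isCompact_Icc (a := (-1 : ℝ)) (b := 1)).exists_bound_of_continuousOn
    (f := fun x => p x * Real.exp (-(R * x))) (by fun_prop)
  refine Integrable.mono' ((bw_integrableOn hr).mul_const C) ?_ ?_
  · refine ((measurable_bw r).mul ?_).aestronglyMeasurable
    exact ((hp.measurable.comp measurable_uu).mul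
      ((measurable_uu.const_mul R).neg.exp))
  · filter_upwards [ae_restrict_mem measurableSet_Ioi] with z hz
    rw [norm_mul, Real.norm_of_nonneg (bw_pos hz).le]
    refine mul_le_mul_of_nonneg_left (hC (uu z) ?_) (bw_pos hz).le
    exact abs_le.1 (uu_abs hz)

theorem ibp (hr : 0 < r) : ∫ z in Set.Ioi 0,
    bw r z * ((r * uu z + R / 2 * (1 - uu z ^ 2)) * Real.exp (-(R * uu z))) = 0 := by
  set f : ℝ → ℝ := fun z => z ^ r * (1 + z) ^ (-(2 * r)) * Real.exp (-(R * uu z)) with hf
  have h := integral_Ioi_of_hasDerivAt_of_tendsto (a := (0 : ℝ)) (m := 0) (f := f)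
    (f' := fun z => bw r z * ((r * uu z + R / 2 * (1 - uu z ^ 2)) * Real.exp (-(R * uu z))))
    ?_ ?_ ?_ ?_
  · rw [h]
    simp only [hf]
    rw [Real.zero_rpow hr.ne']
    ring
  · refine ContinuousAt.continuousWithinAt ?_
    simp only [hf]
    refine ContinuousAt.mul (ContinuousAt.mul ?_ ?_) ?_
    · exact Real.continuousAt_rpow_const _ _ (Or.inr hr.le)
    · exact ContinuousAt.rpow_const (by fun_prop) (Or.inl (by norm_num))
    · refine ((continuousAt_const.mul ?_).neg).rexp
      unfold uu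
      exact ContinuousAt.div (by fun_prop) (by fun_prop) (by norm_num)
  · intro z hz
    have hz' : 0 < z := hz
    have hz1 : 0 < 1 + z := by linarith
    have d1 : HasDerivAt (fun z : ℝ => z ^ r) (r * z ^ (r - 1)) z :=
      Real.hasDerivAt_rpow_const (Or.inl hz'.ne')
    have d2 : HasDerivAt (fun z : ℝ => (1 + z) ^ (-(2 * r)))
        (1 * (-(2 * r)) * (1 + z) ^ (-(2 * r) - 1)) z :=
      ((hasDerivAt_id z).const_add 1).rpow_const (Or.inl hz1.ne')
    have d3 : HasDerivAt uu (-2 / (1 + z) ^ 2) z := by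
      have := ((hasDerivAt_id z).const_sub 1).div ((hasDerivAt_id z).const_add 1) hz1.ne'
      refine this.congr_deriv ?_
      simp only [id]
      congr 1
      ring
    have d4 : HasDerivAt (fun z => Real.exp (-(R * uu z)))
        (Real.exp (-(R * uu z)) * (-(R * (-2 / (1 + z) ^ 2)))) z :=
      ((d3.const_mul R).neg).exp
    have d := (d1.mul d2).mul d4
    refine d.congr_deriv ?_
    have e1 : z ^ r = z ^ (r - 1) * z := by
      rw [← Real.rpow_add_one hz'.ne']; congr 1; ring
    have e2 : (1 + z) ^ (-(2 * r)) = (1 + z) ^ (-(2 * r) - 1) * (1 + z) := by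
      rw [← Real.rpow_add_one hz1.ne']; congr 1; ring
    simp only [Pi.mul_apply]
    unfold bw uu
    rw [e1, e2]
    field_simp
    ring
  · have h1 := moment_integrable (R := R) hr
      (p := fun x => r * x + R / 2 * (1 - x ^ 2)) (by fun_prop)
    exact h1
  · have hlim : Tendsto (fun z : ℝ => z ^ (-r) * Real.exp |R|) atTop (𝓝 (0 * Real.exp |R|)) :=
      (tendsto_rpow_neg_atTop hr).mul_const _
    rw [zero_mul] at hlim
    refine squeeze_zero_norm' ?_ hlim
    filter_upwards [eventually_gt_atTop 0] with z hz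
    have hz1 : 0 < 1 + z := by linarith
    simp only [hf]
    rw [Real.norm_of_nonneg (by positivity)]
    refine mul_le_mul ?_ ?_ (Real.exp_pos _).le (by positivity)
    · have h1 : (1 + z) ^ (-(2 * r)) ≤ z ^ (-(2 * r)) :=
        Real.rpow_le_rpow_of_nonpos hz (by linarith) (by linarith)
      calc z ^ r * (1 + z) ^ (-(2 * r)) ≤ z ^ r * z ^ (-(2 * r)) :=
            mul_le_mul_of_nonneg_left h1 (by positivity)
        _ = z ^ (-r) := by rw [← Real.rpow_add hz]; congr 1; ring
    · apply Real.exp_le_exp.2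
      have h2 := uu_abs hz
      calc -(R * uu z) ≤ |R * uu z| := neg_le_abs _
        _ = |R| * |uu z| := abs_mul _ _
        _ ≤ |R| * 1 := mul_le_mul_of_nonneg_left h2 (abs_nonneg _)
        _ = |R| := mul_one _

/-- the key inequality -/
theorem key_pos (hr : 0 < r) {β : ℝ} (hβ0 : 0 < β) (hR : 0 < R)
    (hRβ : R * (1 - β ^ 2) ≤ 2 * r * β) :
    0 < ∫ z in Set.Ioi 0, bw r z * ((β + uu z) * Real.exp (-(R * uu z))) := by
  set M0 := ∫ z in Set.Ioi 0, bw r z * (1 * Real.exp (-(R * uu z))) with hM0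
  set M1 := ∫ z in Set.Ioi 0, bw r z * (uu z * Real.exp (-(R * uu z))) with hM1
  set M2 := ∫ z in Set.Ioi 0, bw r z * (uu z ^ 2 * Real.exp (-(R * uu z))) with hM2
  have i0 : IntegrableOn (fun z => bw r z * (1 * Real.exp (-(R * uu z)))) (Set.Ioi 0) :=
    moment_integrable hr (p := fun _ => 1) continuous_const
  have i1 : IntegrableOn (fun z => bw r z * (uu z * Real.exp (-(R * uu z)))) (Set.Ioi 0) :=
    moment_integrable hr (p := fun x => x) continuous_id
  have i2 : IntegrableOn (fun z => bw r z * (uu z ^ 2 * Real.exp (-(R * uu z)))) (Set.Ioi 0) :=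
    moment_integrable hr (p := fun x => x ^ 2) (by fun_prop)
  have hcomb : ∀ a b c : ℝ, ∫ z in Set.Ioi 0, bw r z * ((a + b * uu z + c * uu z ^ 2) *
      Real.exp (-(R * uu z))) = a * M0 + b * M1 + c * M2 := by
    intro a b c
    have j01 : IntegrableOn (fun z => a * (bw r z * (1 * Real.exp (-(R * uu z)))) +
        b * (bw r z * (uu z * Real.exp (-(R * uu z))))) (Set.Ioi 0) :=
      (i0.const_mul a).add (i1.const_mul b)
    have j2 : IntegrableOn (fun z => c * (bw r z * (uu z ^ 2 * Real.exp (-(R * uu z)))))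
        (Set.Ioi 0) := i2.const_mul c
    have e1 : ∫ z in Set.Ioi 0, bw r z * ((a + b * uu z + c * uu z ^ 2) *
        Real.exp (-(R * uu z))) = ∫ z in Set.Ioi 0,
        ((a * (bw r z * (1 * Real.exp (-(R * uu z)))) +
        b * (bw r z * (uu z * Real.exp (-(R * uu z))))) +
        c * (bw r z * (uu z ^ 2 * Real.exp (-(R * uu z))))) :=
      integral_congr_ae (Eventually.of_forall fun z => by ring)
    rw [e1, integral_add j01 j2, integral_add (i0.const_mul a) (i1.const_mul b),
      integral_const_mul, integral_const_mul, integral_const_mul]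
  have hibp : r * M1 + R / 2 * (M0 - M2) = 0 := by
    have h1 := hcomb (R / 2) r (-(R / 2))
    have h2 : ∫ z in Set.Ioi 0, bw r z * ((R / 2 + r * uu z + -(R / 2) * uu z ^ 2) *
        Real.exp (-(R * uu z))) = 0 := by
      refine Eq.trans (integral_congr_ae (Eventually.of_forall fun z => ?_))
        (ibp (r := r) (R := R) hr)
      ring
    rw [h2] at h1
    linarith
  have hM0pos : 0 < M0 := by
    rw [hM0, setIntegral_pos_iff_support_of_nonneg_ae _ i0]
    · have h1 : Set.Ioi (0 : ℝ) ⊆
          Function.support (fun z => bw r z * (1 * Real.exp (-(R * uu z)))) ∩ Set.Ioi 0 := by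
        intro z hz
        refine ⟨?_, hz⟩
        rw [Function.mem_support]
        have := bw_pos (r := r) hz
        positivity
      exact lt_of_lt_of_le (by simp) (measure_mono h1)
    · filter_upwards [ae_restrict_mem measurableSet_Ioi] with z hz
      have := bw_pos (r := r) hz
      simp only [Pi.zero_apply]
      positivity
  have hvar : 0 < M0 * M2 - M1 ^ 2 := by
    set l := M1 / M0 with hl
    have h1 : 0 < ∫ z in Set.Ioi 0, bw r z * ((l ^ 2 + (-2 * l) * uu z + 1 * uu z ^ 2) *
        Real.exp (-(R * uu z))) := by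
      have i3 : IntegrableOn (fun z => bw r z * ((l ^ 2 + (-2 * l) * uu z + 1 * uu z ^ 2) *
          Real.exp (-(R * uu z)))) (Set.Ioi 0) :=
        moment_integrable hr (p := fun x => l ^ 2 + (-2 * l) * x + 1 * x ^ 2) (by fun_prop)
      rw [setIntegral_pos_iff_support_of_nonneg_ae _ i3]
      · have h2 : Set.Ioi (0 : ℝ) \ {z | z = (1 - l) / (1 + l)} ⊆
            Function.support (fun z => bw r z * ((l ^ 2 + (-2 * l) * uu z + 1 * uu z ^ 2) *
              Real.exp (-(R * uu z)))) ∩ Set.Ioi 0 := by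
          rintro z ⟨hz, hne⟩
          refine ⟨?_, hz⟩
          have hz' : 0 < z := hz
          rw [Function.mem_support]
          have h3 := bw_pos (r := r) hz'
          have h4 : uu z - l ≠ 0 := by
            intro h5
            apply hne
            change z = (1 - l) / (1 + l)
            have h6 : uu z = l := by linarith
            have h7 : 0 < 1 + z := by linarith
            unfold uu at h6
            rw [div_eq_iff h7.ne'] at h6
            have h8 : 1 + l ≠ 0 := by
              intro h9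
              have : l = -1 := by linarith
              rw [this] at h6
              linarith
            rw [eq_div_iff h8]
            linarith
          have h5 : l ^ 2 + (-2 * l) * uu z + 1 * uu z ^ 2 = (uu z - l) ^ 2 := by ring
          rw [h5]
          have h6 : 0 < (uu z - l) ^ 2 := by positivity
          positivity
        have h3 : volume (Set.Ioi (0 : ℝ) \ {z | z = (1 - l) / (1 + l)}) = ⊤ := by
          rw [measure_sdiff_null (by
            have : {z : ℝ | z = (1 - l) / (1 + l)} = {(1 - l) / (1 + l)} := rfl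
            rw [this]; exact measure_singleton _), Real.volume_Ioi]
        exact lt_of_lt_of_le (by rw [h3]; simp) (measure_mono h2)
      · filter_upwards [ae_restrict_mem measurableSet_Ioi] with z hz
        have := bw_pos (r := r) hz
        have h5 : l ^ 2 + (-2 * l) * uu z + 1 * uu z ^ 2 = (uu z - l) ^ 2 := by ring
        simp only [Pi.zero_apply]
        rw [h5]
        positivity
    rw [hcomb] at h1
    have h2 : l * M0 = M1 := by rw [hl]; field_simp
    have h3 : M0 * (l ^ 2 * M0 + -2 * l * M1 + 1 * M2) = M0 * M2 - M1 ^ 2 := by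
      rw [← h2]; ring
    rw [← h3]
    positivity
  have hgoal : ∫ z in Set.Ioi 0, bw r z * ((β + uu z) * Real.exp (-(R * uu z))) =
      β * M0 + M1 := by
    have := hcomb β 1 0
    rw [one_mul, zero_mul, add_zero] at this
    rw [← this]
    refine integral_congr_ae (Eventually.of_forall fun z => ?_)
    ring
  rw [hgoal]
  by_contra hcon
  push Not at hcon
  -- `k = - M1 / M0 ≥ β`
  have h1 : 2 * r * (-M1) * M0 < R * (M0 ^ 2 - M1 ^ 2) := by
    have h2 : 2 * r * (-M1) = R * (M0 - M2) := by linarith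
    rw [h2]
    nlinarith
  have h2 : β * M0 ≤ -M1 := by linarith
  have h3 : R * (M0 ^ 2 - M1 ^ 2) ≤ R * (M0 ^ 2 - (β * M0) ^ 2) := by
    have : (β * M0) ^ 2 ≤ (-M1) ^ 2 := pow_le_pow_left₀ (by positivity) h2 2
    nlinarith
  have h4 : R * (M0 ^ 2 - (β * M0) ^ 2) ≤ 2 * r * β * M0 ^ 2 := by
    have : R * (M0 ^ 2 - (β * M0) ^ 2) = R * (1 - β ^ 2) * M0 ^ 2 := by ring
    rw [this]
    exact mul_le_mul_of_nonneg_right hRβ (by positivity)
  have h5 : 2 * r * (β * M0) * M0 ≤ 2 * r * (-M1) * M0 := by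
    apply mul_le_mul_of_nonneg_right _ hM0pos.le
    exact mul_le_mul_of_nonneg_left h2 (by positivity)
  nlinarith

end moments

/-- the derivative is negative -/
theorem deriv_neg {r t α : ℝ} (hr : 0 < r) (ht : 0 < t) (htr : t ≤ 2 * r) (h0 : 0 < α)
    (h1 : α < 1) : ∫ w in Set.Ioi 0, dd r t α w < 0 := by
  obtain ⟨β, rfl⟩ : ∃ β, α = 1 - β := ⟨1 - α, by ring⟩
  have hβ0 : 0 < β := by linarith
  have hβ1 : β < 1 := by linarith
  have hc1 : 0 < 1 - β := by linarith
  have hc2 : 0 < 1 + β := by linarith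
  have hk : 0 < (1 - β) / (1 + β) := by positivity
  have h2 := integral_comp_mul_left_Ioi' (dd r t (1 - β)) 0 hk
  rw [mul_zero, smul_eq_mul, ← integral_const_mul] at h2
  rw [← h2, setIntegral_congr_fun measurableSet_Ioi fun z hz =>
    dd_scaled (r := r) ht hβ0 hβ1 hz, integral_const_mul]
  have h3 := key_pos (r := r) (R := t * β / ((1 - β) * (1 + β))) hr hβ0 (by positivity) (by
    have : t * β / ((1 - β) * (1 + β)) * (1 - β ^ 2) = t * β := by
      field_simp
      ring
    rw [this]
    nlinarith)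
  rw [neg_mul]
  apply neg_neg_of_pos
  positivity

/-- strict monotonicity in the coefficient -/
theorem FF_strictAnti {r t : ℝ} (hr : 0 < r) (ht : 0 < t) (htr : t ≤ 2 * r) :
    StrictAntiOn (FF r t) (Set.Ioc 0 1) := by
  refine strictAntiOn_of_deriv_neg (convex_Ioc 0 1) ?_ ?_
  · intro α hα
    exact (FF_hasDerivAt hr ht hα.1 (by linarith [hα.2])).2.continuousAt.continuousWithinAt
  · intro α hα
    rw [interior_Ioc] at hα
    rw [(FF_hasDerivAt hr ht hα.1 (by linarith [hα.2])).2.deriv]
    have h1 := deriv_neg hr ht htr hα.1 hα.2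
    have h2 := Real.Gamma_pos_of_pos hr
    have h3 : 0 < 1 / Real.Gamma r ^ 2 := by positivity
    nlinarith

end Q289.MK
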